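import Pool.Agent.V7H50.SF.Defs
import Pool.Agent.N65.TE.Unram
set_option autoImplicit false

/-!
Symbols on the fibrations over the affine space: replacement of entries.
-/

namespace Pool.Agent.V7H50.SF

open scoped WithZero

open Pool.Agent.TH826.MK

open Pool.Agent.TH826.SX (symb_self symb_upd_one)

open Pool.Agent.N65.TL Pool.Agent.N65.TD Pool.Agent.N65.TE

section block

variable {K : Type*} [Field K] {n N : ℕ} {L : Type*} [Field L]

/-- If the value of the polynomial `W` at some entries is not integral, it suffices to consider the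
symbols in which one of these entries is replaced by the value. -/
theorem block_replace (φ : K →+* L) (v : Valuation L ℤᵐ⁰) (a : Fin N → Lˣ)
    {p : Fin n → Fin N} (hp : Function.Injective p) {W : LP K n} (hW : SimplexFaces W) (X : Lˣ)
    (hXW : (X : L) = lev φ (fun j => a (p j)) W) (hbig : 1 < v (X : L))
    (h : ∀ c : Fin N → Lˣ, (∀ l, (∀ j, p j ≠ l) → c l = a l) → (∃ j, c (p j) = X) →
      symb c ∈ unitPart v N) : symb a ∈ unitPart v N := by
  classical
  have hWt : ∀ a : Fin n → ℤ, a ≠ 0 → Tame (face W a) := fun a ha =>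
    SimplexType.tame (hW.faces a ha)
  rcases generic_or φ v a hp hW.int hWt (by rw [← hXW]; exact hbig) with hd | ⟨k, m0, hk0, hk, hm0,
    hmax, hM, heq, hsub⟩
  · exact hd
  set z : Fin n → Lˣ := fun j => a (p j) with hz
  obtain ⟨d, m, ε, hm, hε, hface⟩ := hW.faces k hk0
  have hε0 : ∀ i, ε i ≠ 0 := by
    intro i h0
    obtain ⟨k', hk', hk1⟩ := hε i
    rw [h0, zero_pow hk'] at hk1
    exact zero_ne_one hk1
  set u : Fin (d + 1) → Lˣ := fun i => Units.mk0 (φ (ε i)) ((map_ne_zero φ).2 (hε0 i)) with hu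
  have hu1 : ∀ i, ∃ k : ℕ, k ≠ 0 ∧ u i ^ k = 1 := by
    intro i
    obtain ⟨k, hk, hk1⟩ := hε i
    refine ⟨k, hk, Units.ext ?_⟩
    rw [Units.val_pow_eq_pow_val, hu, Units.val_mk0, ← map_pow, hk1, map_one, Units.val_one]
  have huv : ∀ i, v (u i : L) = 1 := by
    intro i
    obtain ⟨k, hk, hk1⟩ := hε i
    refine val_root v hk ?_
    rw [hu, Units.val_mk0, ← map_pow, hk1, map_one]
  have hdot : ∀ i, ∑ j, k j * m i j = ∑ j, k j * m0 j := by
    intro i
    have h3 : (face W k).coeff (m i) ≠ 0 := by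
      rw [hface, AddMonoidAlgebra.coeff_sum, Finsupp.finsetSum_apply, Finset.sum_eq_single i]
      · rw [AddMonoidAlgebra.coeff_single, Finsupp.single_eq_same]
        exact hε0 i
      · intro j _ hj
        rw [AddMonoidAlgebra.coeff_single]
        exact Finsupp.single_eq_of_ne fun h => hj (hm.injective h).symm
      · intro h
        exact absurd (Finset.mem_univ _) h
    have h4 : ∀ m', W.coeff m' ≠ 0 → ∑ j, k j * m' j ≤ ∑ j, k j * m i j := by
      by_contra h5
      exact h3 (coeff_face_of_not W k (m i) h5)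
    have h6 : W.coeff (m i) ≠ 0 := by
      rw [← coeff_face_of W k (m i) h4]
      exact h3
    exact le_antisymm (hmax _ h6) (h4 _ hm0)
  have hlevf : lev φ z (face W k) = ∑ i, ((u i * mon z (m i) : Lˣ) : L) := by
    rw [hface, map_sum]
    refine Finset.sum_congr rfl fun i _ => ?_
    rw [lev_single, Units.val_mul]
    rfl
  have hvX : v (X : L) = v ((mon z m0 : Lˣ) : L) := by
    rw [hXW]
    exact heq
  refine mem_unitPart_of_generic v a hp m (linIndep_of_affine hm hM.ne' hdot) u hu1 X
    (fun i => ?_) ?_ h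
  · rw [Units.val_mul, map_mul, huv, one_mul, hvX, val_mon v z hk, val_mon v z hk, hdot]
  · rw [← hlevf, hvX, hXW]
    exact hsub

/-- If the value of the polynomial `W` at some entries is congruent to a power of `x`, it suffices
to consider the symbols in which one of these entries is replaced by `x`. -/
theorem block_pow (φ : K →+* L) (v : Valuation L ℤᵐ⁰) (a : Fin N → Lˣ)
    {p : Fin n → Fin N} (hp : Function.Injective p) {W : LP K n} (hW : SimplexFaces W) {x : Lˣ}
    {d : ℕ} (hd : 0 < d) (hx : 1 < v (x : L))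
    (hW' : v (lev φ (fun j => a (p j)) W - (x : L) ^ d) < v (x : L) ^ d)
    (h : ∀ c : Fin N → Lˣ, (∀ l, (∀ j, p j ≠ l) → c l = a l) → (∃ j, c (p j) = x) →
      symb c ∈ unitPart v N) : symb a ∈ unitPart v N := by
  classical
  have hval : v (lev φ (fun j => a (p j)) W) = v (x : L) ^ d := by
    rw [← map_pow] at hW' ⊢
    have h2 : lev φ (fun j => a (p j)) W =
        (x : L) ^ d + (lev φ (fun j => a (p j)) W - (x : L) ^ d) := by ring
    rw [h2]
    exact Valuation.map_add_eq_of_lt_left v hW'
  have hbig : 1 < v (lev φ (fun j => a (p j)) W) := by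
    rw [hval]
    exact one_lt_pow₀ hx hd.ne'
  have hne : lev φ (fun j => a (p j)) W ≠ 0 := by
    intro h0
    rw [h0, map_zero] at hbig
    exact absurd hbig (not_lt.2 zero_le_one)
  refine block_replace φ v a hp hW (Units.mk0 _ hne) rfl hbig fun c hc hcX => ?_
  obtain ⟨j0, hj0⟩ := hcX
  have hcu : c = Function.update c (p j0) (Units.mk0 _ hne) := by
    rw [← hj0, Function.update_eq_self]
  rw [hcu, upd_mem_iff v c (p j0) (x := x) (k := d) hW']
  refine (unitPart v N).smul_mem _ (h _ (fun l hl => ?_) ⟨j0, Function.update_self _ _ _⟩)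
  rw [Function.update_of_ne (hl j0).symm]
  exact hc l hl

/-- The same for several polynomials and disjoint sets of entries. -/
theorem blocks_pow (φ : K →+* L) (v : Valuation L ℤᵐ⁰) {ι : Type*} [DecidableEq ι] {n : ι → ℕ}
    (p : ∀ j, Fin (n j) → Fin N) (hp : ∀ j, Function.Injective (p j))
    (hdisj : ∀ j j' i i', j ≠ j' → p j i ≠ p j' i') {W : ∀ j, LP K (n j)}
    (hW : ∀ j, SimplexFaces (W j)) (x : ι → Lˣ) (d : ι → ℕ) (hd : ∀ j, 0 < d j) (l00 : Fin N)
    (J : Finset ι) : ∀ (a : Fin N → Lˣ), (∀ j ∈ J, 1 < v (x j : L)) →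
    (∀ j ∈ J, v (lev φ (fun i => a (p j i)) (W j) - (x j : L) ^ d j) < v (x j : L) ^ d j) →
    (∀ (c : Fin N → Lˣ) (q : ι → Fin N), (∀ l, (∀ j ∈ J, ∀ i, p j i ≠ l) → c l = a l) →
      (∀ j ∈ J, (∃ i, p j i = q j) ∧ c (q j) = x j) → symb c ∈ unitPart v N) →
    symb a ∈ unitPart v N := by
  induction J using Finset.induction_on with
  | empty =>
    intro a _ _ h
    exact h a (fun _ => l00) (fun _ _ => rfl) fun j hj => absurd hj (Finset.notMem_empty j)
  | insert j0 T hj0 ih =>
    intro a hx hlev h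
    refine block_pow φ v a (hp j0) (hW j0) (hd j0) (hx j0 (Finset.mem_insert_self _ _))
      (hlev j0 (Finset.mem_insert_self _ _)) fun c hc hcx => ?_
    obtain ⟨i0, hi0⟩ := hcx
    have hne : ∀ j ∈ T, j ≠ j0 := fun j hj h => hj0 (h ▸ hj)
    have hcT : ∀ j ∈ T, ∀ i, c (p j i) = a (p j i) := fun j hj i =>
      hc _ fun i' => hdisj j0 j i' i (hne j hj).symm
    refine ih c (fun j hj => hx j (Finset.mem_insert_of_mem hj)) (fun j hj => ?_)
      fun c' q hc' hq => ?_
    · have h1 : (fun i => c (p j i)) = fun i => a (p j i) := funext (hcT j hj)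
      rw [h1]
      exact hlev j (Finset.mem_insert_of_mem hj)
    · refine h c' (Function.update q j0 (p j0 i0)) (fun l hl => ?_) fun j hj => ?_
      · rw [hc' l fun j hj => hl j (Finset.mem_insert_of_mem hj)]
        exact hc l (hl j0 (Finset.mem_insert_self _ _))
      · rcases Finset.mem_insert.1 hj with rfl | hj
        · rw [Function.update_self]
          refine ⟨⟨i0, rfl⟩, ?_⟩
          rw [hc' _ fun j' hj' i => hdisj j' j i i0 (hne j' hj')]
          exact hi0
        · rw [Function.update_of_ne (hne j hj)]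
          exact hq j hj

end block

end Pool.Agent.V7H50.SF
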