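import Pool.Agent.N65.TE.Reg
set_option autoImplicit false

/-!
The blocks of the tori: blocks over circles, and the block with the large constant.
-/

namespace Pool.Agent.V7H50.SF

open Filter Topology

open Pool.Agent.TH826.MK

open Pool.Agent.TH826.SX (good_circ lw_circ circ_ne_zero)

open Pool.Agent.N65.TL Pool.Agent.N65.TD Pool.Agent.N65.TE

theorem norm_two_pi_I : ‖(2 * Real.pi * Complex.I : ℂ)‖ = 2 * Real.pi := by
  rw [norm_mul, norm_mul, Complex.norm_I, Complex.norm_real, Complex.norm_ofNat, mul_one,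
    Real.norm_eq_abs, abs_of_pos Real.pi_pos]

/-- Continuous periodic functions are bounded. -/
theorem bounded_of_per {D : ℕ} {f : (Fin D → ℝ) → ℂ} (hf : Continuous f) (hp : Per f) :
    ∃ B : ℝ, 0 ≤ B ∧ ∀ θ, ‖f θ‖ ≤ B := by
  classical
  obtain ⟨C, hC⟩ := (isCompact_Icc (a := (0 : Fin D → ℝ)) (b := 1)).exists_bound_of_continuousOn
    hf.continuousOn
  have hP : ∀ j, Function.Periodic f (Pi.single j 1) := fun j θ => hp θ j
  have hn : ∀ (n : Fin D → ℤ) (T : Finset (Fin D)),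
      Function.Periodic f (∑ j ∈ T, n j • (Pi.single j 1 : Fin D → ℝ)) := by
    intro n T
    induction T using Finset.induction_on with
    | empty => intro θ; simp
    | insert j T hj ih =>
      rw [Finset.sum_insert hj]
      exact ((hP j).zsmul (n j)).add_period ih
  refine ⟨max C 0, le_max_right _ _, fun θ => le_trans ?_ (le_max_left _ _)⟩
  have h1 : θ = (fun j => Int.fract (θ j)) +
      ∑ j, ⌊θ j⌋ • (Pi.single j 1 : Fin D → ℝ) := by
    funext i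
    rw [Pi.add_apply, Finset.sum_apply, Finset.sum_eq_single i]
    · rw [Pi.smul_apply, Pi.single_eq_same, zsmul_eq_mul, mul_one, Int.fract_add_floor]
    · intro j _ hj
      rw [Pi.smul_apply, Pi.single_eq_of_ne hj.symm, smul_zero]
    · intro h
      exact absurd (Finset.mem_univ i) h
  have h2 : f θ = f (fun j => Int.fract (θ j)) := by
    conv_lhs => rw [h1]
    exact hn (fun j => ⌊θ j⌋) Finset.univ _
  rw [h2]
  refine hC _ ⟨fun j => Int.fract_nonneg _, fun j => (Int.fract_lt_one _).le⟩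

theorem bounded_fderiv {D : ℕ} {f : (Fin D → ℝ) → ℂ} (hf : ContDiff ℝ 2 f) (hp : Per f) :
    ∃ B : ℝ, 0 ≤ B ∧ ∀ θ j, ‖fderiv ℝ f θ (Pi.single j 1)‖ ≤ B := by
  have h1 : ∀ j, ∃ B : ℝ, 0 ≤ B ∧ ∀ θ, ‖fderiv ℝ f θ (Pi.single j 1)‖ ≤ B := by
    intro j
    refine bounded_of_per (f := fun θ => fderiv ℝ f θ (Pi.single j 1)) ?_ fun θ i => ?_
    · exact (hf.continuous_fderiv (by norm_num)).clm_apply continuous_const
    · simp only
      have h2 : (fun θ => f (θ + Pi.single i 1)) = f := funext fun θ => hp θ i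
      have h3 := fderiv_comp_add_right (𝕜 := ℝ) (f := f) (x := θ) (Pi.single i 1)
      rw [h2] at h3
      rw [h3]
  choose B hB0 hB using h1
  exact ⟨∑ j, B j, Finset.sum_nonneg fun j _ => hB0 j, fun θ j =>
    (hB j θ).trans (Finset.single_le_sum (fun j _ => hB0 j) (Finset.mem_univ j))⟩

variable {K : Type*} [Field K] {s : ℕ}

/-- The block over a circle. -/
theorem circle_block (σ : K →+* ℂ) {W : LP K (s + 1)} {F : Polynomial K}
    (hF : F.Monic) (hN : 0 < F.natDegree) {al v : Fin (s + 1) → ℤ} (hv : W.coeff v ≠ 0)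
    (hpos : 0 < dot al v) (hmax : ∀ m, W.coeff m ≠ 0 → m ≠ v → dot al m < dot al v)
    (i0 : Fin (s + 1)) {δ : ℝ} (hδ : 0 < δ) :
    ∃ (ρ C : ℝ) (k1 : ℕ), 0 < ρ ∧ 0 ≤ C ∧ ∀ (D : ℕ) (j0 : Fin D) (q : Fin s → Fin D),
      ∃ Z : Fin (s + 1) → (Fin D → ℝ) → ℂ, (∀ i, Good (Z i)) ∧ (∀ i, Per (Z i)) ∧
        (∀ i θ, |Real.log ‖Z i θ‖| ≤ C) ∧
        (∀ i j θ, ‖lw (Z i) j θ - 2 * Real.pi * Complex.I *
          (al i * (if j = j0 then (F.natDegree : ℂ) else 0) +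
            ∑ l, if j = q l then (bdir v i0 l i : ℂ) else 0)‖ < δ) ∧
        ∀ θ, ∑ m ∈ W.coeff.support, σ (W.coeff m) * ∏ i, Z i θ ^ (m i) =
          F.eval₂ σ (circ ρ (θ j0) ^ k1) := by
  classical
  have hpi := Real.pi_pos
  have hnpi : ‖(2 * Real.pi * Complex.I : ℂ)‖ = 2 * Real.pi := norm_two_pi_I
  set N : ℕ := F.natDegree with hNdef
  have hNR : (1 : ℝ) ≤ N := by exact_mod_cast hN
  set k1 : ℕ := (dot al v).toNat with hk1
  have hk1z : (k1 : ℤ) = dot al v := Int.toNat_of_nonneg hpos.le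
  have hk10 : 0 < k1 := by omega
  have hσv : σ (W.coeff v) ≠ 0 := (map_ne_zero σ).2 hv
  set A : ℝ := 1 + ∑ i, |(al i : ℝ)| with hA
  have hsa : 0 ≤ ∑ i, |(al i : ℝ)| := Finset.sum_nonneg fun i _ => abs_nonneg _
  have hA1 : 1 ≤ A := by linarith
  have hAi : ∀ i, |(al i : ℝ)| ≤ A := by
    intro i
    have h2 : |(al i : ℝ)| ≤ ∑ i, |(al i : ℝ)| :=
      Finset.single_le_sum (f := fun i => |(al i : ℝ)|) (fun i _ => abs_nonneg _)
        (Finset.mem_univ i)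
    linarith
  set δ0 : ℝ := δ / (4 * A) with hδ0
  have hδ0pos : 0 < δ0 := div_pos hδ (by linarith)
  have hδle : 3 * (A * δ0) < δ := by
    have h2 : δ = 4 * (A * δ0) := by
      rw [hδ0]
      field_simp
    have h3 : 0 < A * δ0 := by positivity
    linarith
  have hδA : δ0 ≤ A * δ0 := le_mul_of_one_le_left hδ0pos.le hA1
  obtain ⟨η1, hη1, hroot1⟩ := exists_small_root hk10 hδ0pos
  set B1 : ℝ := 2 * Real.pi * N + δ0 with hB1
  have hB10 : 0 ≤ B1 := by positivity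
  obtain ⟨R1, hR1, hz1⟩ := exists_z σ hv hpos hmax i0 hB10 hδ0pos
  obtain ⟨κ1, hκ1⟩ := IsAlgClosed.exists_pow_nat_eq (1 / σ (W.coeff v)) hk10
  have hκ10 : κ1 ≠ 0 := by
    rintro rfl
    rw [zero_pow hk10.ne'] at hκ1
    exact (one_div_ne_zero hσv) hκ1.symm
  -- the radius
  set S0 : ℝ := ∑ i ∈ Finset.range N, ‖σ (F.coeff i)‖ * (1 + 2 * Real.pi * (k1 * N)) with hS0
  have hS00 : 0 ≤ S0 := Finset.sum_nonneg fun i _ => by positivity
  set L1 : ℝ := Real.log R1 + |Real.log ‖κ1‖| + δ0 with hL1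
  set ρ : ℝ := 1 + S0 / η1 + Real.exp L1 with hρdef
  have hSη : 0 ≤ S0 / η1 := by positivity
  have hρ1 : 1 ≤ ρ := by linarith [Real.exp_pos L1]
  have hρ : 0 < ρ := by linarith
  have hρL : L1 ≤ Real.log ρ := by
    rw [Real.le_log_iff_exp_le hρ]
    linarith
  have hρS : S0 / ρ ≤ η1 := by
    rw [div_le_iff₀ hρ]
    have h1 : S0 / η1 ≤ ρ := by linarith [Real.exp_pos L1]
    rw [div_le_iff₀ hη1] at h1
    linarith
  have hlogρ : 0 ≤ Real.log ρ := Real.log_nonneg hρ1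
  have hpw : ∀ i ∈ Finset.range N, ρ ^ ((k1 : ℤ) * ((i : ℤ) - N)) ≤ ρ⁻¹ := by
    intro i hi
    have h1 : (i : ℤ) < N := by exact_mod_cast Finset.mem_range.1 hi
    rw [← zpow_neg_one]
    refine zpow_le_zpow_right₀ hρ1 ?_
    have h2 : (1 : ℤ) ≤ k1 := by exact_mod_cast hk10
    nlinarith
  set CΛ : ℝ := |Real.log ‖κ1‖| + N * Real.log ρ + δ0 with hCΛ
  have hCΛ0 : 0 ≤ CΛ := by positivity
  refine ⟨ρ, A * CΛ + δ0, k1, hρ, by positivity, fun D j0 q => ?_⟩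
  set u1 : (Fin D → ℝ) → ℂ := lsum (Finset.range N) (fun i => σ (F.coeff i))
    (fun i => (k1 : ℤ) * ((i : ℤ) - N)) ρ j0 with hu1
  have hu1n : ∀ θ, ‖u1 θ‖ ≤ η1 := by
    intro θ
    refine (norm_lsum_le _ _ _ j0 hρ θ).trans (le_trans ?_ hρS)
    rw [hS0, Finset.sum_div]
    refine Finset.sum_le_sum fun i hi => ?_
    rw [div_eq_mul_inv, mul_assoc]
    refine mul_le_mul_of_nonneg_left ((hpw i hi).trans ?_) (norm_nonneg _)
    refine le_mul_of_one_le_left (by positivity) ?_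
    have : 0 ≤ 2 * Real.pi * (k1 * N) := by positivity
    linarith
  have hu1d : ∀ θ j, ‖fderiv ℝ u1 θ (Pi.single j 1)‖ ≤ η1 := by
    intro θ j
    refine (norm_fderiv_lsum_le _ _ _ j0 hρ θ j).trans (le_trans ?_ hρS)
    rw [hS0, Finset.sum_div]
    refine Finset.sum_le_sum fun i hi => ?_
    rw [mul_div_assoc, div_eq_mul_inv]
    refine mul_le_mul_of_nonneg_left ?_ (norm_nonneg _)
    refine mul_le_mul ?_ (hpw i hi) (by positivity) (by positivity)
    have h1 : |(((k1 : ℤ) * ((i : ℤ) - N) : ℤ) : ℝ)| ≤ k1 * N := by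
      push_cast
      rw [abs_mul, abs_of_nonneg (by positivity : (0 : ℝ) ≤ k1)]
      refine mul_le_mul_of_nonneg_left ?_ (by positivity)
      have h2 : (i : ℝ) < N := by exact_mod_cast Finset.mem_range.1 hi
      rw [abs_of_nonpos (by linarith)]
      have : (0 : ℝ) ≤ i := by positivity
      linarith
    have h2 : 2 * Real.pi * |(((k1 : ℤ) * ((i : ℤ) - N) : ℤ) : ℝ)| ≤ 2 * Real.pi * (k1 * N) :=
      mul_le_mul_of_nonneg_left h1 (by positivity)
    linarith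
  obtain ⟨g1, hg1, hdep1, hlog1, hlw1, heq1⟩ := hroot1 _ u1 (contDiff_lsum _ _ _ j0 hρ) hu1n hu1d
  have hcg : Good fun θ : Fin D → ℝ => circ ρ (θ j0) ^ (N : ℤ) := good_zpow (good_circ hρ j0) _
  set Λ1 : (Fin D → ℝ) → ℂ := fun θ => κ1 * (circ ρ (θ j0) ^ (N : ℤ) * g1 θ) with hΛ1
  have hΛ1g : Good Λ1 := (good_const hκ10).mul (hcg.mul hg1)
  have hΛ1p : Per Λ1 := by
    intro θ j
    have h1 : g1 (θ + Pi.single j 1) = g1 θ := hdep1 _ _ (per_lsum _ _ _ j0 θ j)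
    have h2 : circ ρ ((θ + Pi.single j 1 : Fin D → ℝ) j0) = circ ρ (θ j0) :=
      per_circ ρ j0 θ j
    simp only [hΛ1]
    rw [h1, h2]
  have hΛ1log : ∀ θ, Real.log ‖Λ1 θ‖ = Real.log ‖κ1‖ + (N * Real.log ρ + Real.log ‖g1 θ‖) := by
    intro θ
    simp only [hΛ1]
    rw [norm_mul, norm_mul, Real.log_mul (norm_ne_zero_iff.2 hκ10)
      (mul_ne_zero (norm_ne_zero_iff.2 (hcg.ne_zero θ)) (norm_ne_zero_iff.2 (hg1.ne_zero θ))),
      Real.log_mul (norm_ne_zero_iff.2 (hcg.ne_zero θ)) (norm_ne_zero_iff.2 (hg1.ne_zero θ)),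
      norm_zpow, norm_circ hρ.le, Real.log_zpow]
    push_cast
    ring
  have hΛ1R : ∀ θ, R1 ≤ ‖Λ1 θ‖ := by
    intro θ
    have h1 := (abs_le.1 (hlog1 θ)).1
    have h2 := neg_abs_le (Real.log ‖κ1‖)
    have h3 : Real.log ρ ≤ N * Real.log ρ := le_mul_of_one_le_left hlogρ hNR
    have h4 : Real.log R1 ≤ Real.log ‖Λ1 θ‖ := by
      rw [hΛ1log θ]
      linarith
    exact (Real.log_le_log_iff (by linarith) (norm_pos_iff.2 (hΛ1g.ne_zero θ))).1 h4
  have hΛ1abs : ∀ θ, |Real.log ‖Λ1 θ‖| ≤ CΛ := by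
    intro θ
    rw [hΛ1log θ]
    have h1 := hlog1 θ
    refine (abs_add_le _ _).trans ?_
    rw [hCΛ, add_assoc]
    refine add_le_add le_rfl ((abs_add_le _ _).trans (add_le_add ?_ h1))
    rw [abs_of_nonneg (by positivity)]
  have hΛ1lw : ∀ j θ, ‖lw Λ1 j θ - 2 * Real.pi * Complex.I * (if j = j0 then (N : ℂ) else 0)‖ ≤
      δ0 := by
    intro j θ
    have h1 := lw_mul (good_const (d := D) hκ10) (hcg.mul hg1) j θ
    rw [lw_const, zero_add, lw_mul hcg hg1, lw_zpow (good_circ hρ j0), lw_circ hρ] at h1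
    have h2 : lw Λ1 j θ = _ := h1
    rw [h2]
    have h3 : ((N : ℤ) : ℂ) * (if j = j0 then 2 * Real.pi * Complex.I else 0) + lw g1 j θ -
        2 * Real.pi * Complex.I * (if j = j0 then (N : ℂ) else 0) = lw g1 j θ := by
      split_ifs
      · push_cast
        ring
      · ring
    rw [h3]
    exact hlw1 j θ
  have hΛ1B : ∀ j θ, ‖lw Λ1 j θ‖ ≤ B1 := by
    intro j θ
    have h1 := norm_sub_norm_le (lw Λ1 j θ)
      (2 * Real.pi * Complex.I * (if j = j0 then (N : ℂ) else 0))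
    have h2 := hΛ1lw j θ
    have h3 : ‖(2 * Real.pi * Complex.I * (if j = j0 then (N : ℂ) else 0) : ℂ)‖ ≤
        2 * Real.pi * N := by
      rw [norm_mul, hnpi]
      refine mul_le_mul_of_nonneg_left ?_ (by positivity)
      split_ifs
      · rw [Complex.norm_natCast]
      · rw [norm_zero]
        positivity
    rw [hB1]
    linarith
  have hΛ1k : ∀ θ, σ (W.coeff v) * Λ1 θ ^ k1 = F.eval₂ σ (circ ρ (θ j0) ^ k1) := by
    intro θ
    have h1 := eval_circ σ hF k1 hρ j0 θ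
    rw [h1]
    have h3 := heq1 θ
    simp only [hΛ1]
    rw [mul_pow, mul_pow, hκ1, h3]
    field_simp
    rfl
  obtain ⟨Z, hZg, hZp, hZlog, hZlw, hZeq⟩ := hz1 D q Λ1 hΛ1g hΛ1p hΛ1R hΛ1B
  refine ⟨Z, hZg, hZp, fun i θ => ?_, fun i j θ => ?_, fun θ => (hZeq θ).trans (hΛ1k θ)⟩
  · have h1 := hZlog i θ
    have h2 := hΛ1abs θ
    have h3 : Real.log ‖Z i θ‖ = (Real.log ‖Z i θ‖ - al i * Real.log ‖Λ1 θ‖) +
        al i * Real.log ‖Λ1 θ‖ := by ring
    rw [h3]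
    refine (abs_add_le _ _).trans ?_
    rw [abs_mul]
    have h4 : |(al i : ℝ)| * |Real.log ‖Λ1 θ‖| ≤ A * CΛ :=
      mul_le_mul (hAi i) h2 (abs_nonneg _) (by linarith)
    linarith
  · refine lt_of_le_of_lt ?_ hδle
    have h1 := hZlw i j θ
    have h2 := hΛ1lw j θ
    have e1 : lw (Z i) j θ - 2 * Real.pi * Complex.I *
        (al i * (if j = j0 then (N : ℂ) else 0) +
          ∑ l, if j = q l then (bdir v i0 l i : ℂ) else 0) =
        (lw (Z i) j θ - (al i * lw Λ1 j θ + 2 * Real.pi * Complex.I *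
          ∑ l, if j = q l then (bdir v i0 l i : ℂ) else 0)) +
        al i * (lw Λ1 j θ - 2 * Real.pi * Complex.I * (if j = j0 then (N : ℂ) else 0)) := by
      ring
    rw [e1]
    refine (norm_add_le _ _).trans ?_
    rw [norm_mul, Complex.norm_intCast]
    have h4 : |(al i : ℝ)| * ‖lw Λ1 j θ - 2 * Real.pi * Complex.I *
        (if j = j0 then (N : ℂ) else 0)‖ ≤ A * δ0 :=
      mul_le_mul (hAi i) h2 (norm_nonneg _) (by linarith)
    linarith

/-- The block with the large constant. -/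
theorem const_block (σ : K →+* ℂ) {V : LP K (s + 1)} {be v' : Fin (s + 1) → ℤ}
    (hv' : V.coeff v' ≠ 0) (hpos' : 0 < dot be v')
    (hmax' : ∀ m, V.coeff m ≠ 0 → m ≠ v' → dot be m < dot be v') (i0' : Fin (s + 1)) {δ : ℝ}
    (hδ : 0 < δ) {D : ℕ} (q : Fin s → Fin D) {H : (Fin D → ℝ) → ℂ} (hH : ContDiff ℝ 2 H)
    (hHp : Per H) : ∃ C : ℝ, 1 ≤ C ∧ ∀ c : ℂ, C ≤ ‖c‖ →
      ∃ Y : Fin (s + 1) → (Fin D → ℝ) → ℂ, (∀ i, Good (Y i)) ∧ (∀ i, Per (Y i)) ∧
        (∀ i θ, |Real.log ‖Y i θ‖ / Real.log ‖c‖ - be i / dot be v'| < δ) ∧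
        (∀ i j θ, ‖lw (Y i) j θ - 2 * Real.pi * Complex.I *
          (∑ l, if j = q l then (bdir v' i0' l i : ℂ) else 0)‖ < δ) ∧
        ∀ θ, ∑ m ∈ V.coeff.support, σ (V.coeff m) * ∏ i, Y i θ ^ (m i) = H θ + c := by
  classical
  have hpi := Real.pi_pos
  obtain ⟨BH, hBH0, hBH⟩ := bounded_of_per hH.continuous hHp
  obtain ⟨BD, hBD0, hBD⟩ := bounded_fderiv hH hHp
  set k2 : ℕ := (dot be v').toNat with hk2
  have hk2z : (k2 : ℤ) = dot be v' := Int.toNat_of_nonneg hpos'.le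
  have hk20 : 0 < k2 := by omega
  have hk2R : (0 : ℝ) < k2 := by exact_mod_cast hk20
  have hk2R1 : (1 : ℝ) ≤ k2 := by exact_mod_cast hk20
  have hk2zR : ((dot be v' : ℤ) : ℝ) = k2 := by
    rw [← hk2z]
    simp
  have hσv' : σ (V.coeff v') ≠ 0 := (map_ne_zero σ).2 hv'
  set A : ℝ := 1 + ∑ i, |(be i : ℝ)| with hA
  have hsb : 0 ≤ ∑ i, |(be i : ℝ)| := Finset.sum_nonneg fun i _ => abs_nonneg _
  have hA1 : 1 ≤ A := by linarith
  have hBi : ∀ i, |(be i : ℝ)| ≤ A := by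
    intro i
    have h2 : |(be i : ℝ)| ≤ ∑ i, |(be i : ℝ)| :=
      Finset.single_le_sum (f := fun i => |(be i : ℝ)|) (fun i _ => abs_nonneg _)
        (Finset.mem_univ i)
    linarith
  set δ0 : ℝ := δ / (4 * A) with hδ0
  have hδ0pos : 0 < δ0 := div_pos hδ (by linarith)
  have hδle : 3 * (A * δ0) < δ := by
    have h2 : δ = 4 * (A * δ0) := by
      rw [hδ0]
      field_simp
    have h3 : 0 < A * δ0 := by positivity
    linarith
  have hδA : δ0 ≤ A * δ0 := le_mul_of_one_le_left hδ0pos.le hA1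
  obtain ⟨η2, hη2, hroot2⟩ := exists_small_root hk20 hδ0pos
  obtain ⟨R2, hR2, hz2⟩ := exists_z σ hv' hpos' hmax' i0' hδ0pos.le hδ0pos
  set MG : ℝ := BH + BD with hMG
  have hMG0 : 0 ≤ MG := by positivity
  set C2 : ℝ := |Real.log ‖σ (V.coeff v')‖| + δ0 with hC2
  have hC20 : 0 ≤ C2 := by positivity
  have hlogR2 : 0 ≤ Real.log R2 := Real.log_nonneg hR2
  set M : ℝ := (A * C2 + δ0) / δ0 + k2 * (Real.log R2 + C2) + 1 with hM
  have hM2 : 0 ≤ (A * C2 + δ0) / δ0 := by positivity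
  have hM3 : 0 ≤ k2 * (Real.log R2 + C2) := by positivity
  have hMGη : 0 ≤ MG / η2 := by positivity
  refine ⟨Real.exp M + 1 + MG / η2, by linarith [Real.exp_pos M], fun c hc => ?_⟩
  have hln : 0 < ‖c‖ := by linarith [Real.exp_pos M]
  have hc0 : c ≠ 0 := norm_pos_iff.1 hln
  set T : ℝ := Real.log ‖c‖ with hT
  have hTM : M ≤ T := by
    rw [hT, Real.le_log_iff_exp_le hln]
    linarith
  have hTpos : 0 < T := by linarith
  have hMGc : MG / ‖c‖ ≤ η2 := by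
    rw [div_le_iff₀ hln]
    have h1 : MG / η2 ≤ ‖c‖ := by linarith [Real.exp_pos M]
    rw [div_le_iff₀ hη2] at h1
    linarith
  set u2 : (Fin D → ℝ) → ℂ := fun θ => H θ / c with hu2
  have hu2c : ContDiff ℝ 2 u2 := hH.div_const c
  have hu2n : ∀ θ, ‖u2 θ‖ ≤ η2 := by
    intro θ
    refine le_trans ?_ hMGc
    simp only [hu2]
    rw [norm_div]
    refine div_le_div_of_nonneg_right ?_ (norm_nonneg _)
    linarith [hBH θ]
  have hu2d : ∀ θ j, ‖fderiv ℝ u2 θ (Pi.single j 1)‖ ≤ η2 := by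
    intro θ j
    refine le_trans ?_ hMGc
    have h1 : fderiv ℝ u2 θ (Pi.single j 1) = fderiv ℝ H θ (Pi.single j 1) / c := by
      have h2 : u2 = fun θ => c⁻¹ * H θ := by
        funext θ
        simp only [hu2]
        rw [div_eq_inv_mul]
      rw [h2, fderiv_const_mul (hH.differentiable (by norm_num) θ), div_eq_inv_mul]
      rfl
    rw [h1, norm_div]
    refine div_le_div_of_nonneg_right ?_ (norm_nonneg _)
    linarith [hBD θ j]
  obtain ⟨g2, hg2, hdep2, hlog2, hlw2, heq2⟩ := hroot2 _ u2 hu2c hu2n hu2d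
  obtain ⟨κ2, hκ2⟩ := IsAlgClosed.exists_pow_nat_eq (c / σ (V.coeff v')) hk20
  have hκ20 : κ2 ≠ 0 := by
    rintro rfl
    rw [zero_pow hk20.ne'] at hκ2
    exact (div_ne_zero hc0 hσv') hκ2.symm
  have hlogκ : Real.log ‖κ2‖ = (T - Real.log ‖σ (V.coeff v')‖) / k2 := by
    have h1 : (k2 : ℝ) * Real.log ‖κ2‖ = T - Real.log ‖σ (V.coeff v')‖ := by
      rw [← Real.log_pow, ← norm_pow, hκ2, norm_div, Real.log_div hln.ne'
        (norm_ne_zero_iff.2 hσv')]
    rw [← h1]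
    field_simp
  set Λ2 : (Fin D → ℝ) → ℂ := fun θ => κ2 * g2 θ with hΛ2
  have hΛ2g : Good Λ2 := (good_const hκ20).mul hg2
  have hΛ2p : Per Λ2 := by
    intro θ j
    have h1 : g2 (θ + Pi.single j 1) = g2 θ := hdep2 _ _ (by
      simp only [hu2]
      rw [hHp θ j])
    simp only [hΛ2]
    rw [h1]
  have hΛ2log : ∀ θ, |Real.log ‖Λ2 θ‖ - T / k2| ≤ C2 := by
    intro θ
    have h1 : Real.log ‖Λ2 θ‖ = Real.log ‖κ2‖ + Real.log ‖g2 θ‖ := by
      simp only [hΛ2]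
      rw [norm_mul, Real.log_mul (norm_ne_zero_iff.2 hκ20) (norm_ne_zero_iff.2 (hg2.ne_zero θ))]
    rw [h1, hlogκ]
    have h2 : (T - Real.log ‖σ (V.coeff v')‖) / k2 + Real.log ‖g2 θ‖ - T / k2 =
        -(Real.log ‖σ (V.coeff v')‖ / k2) + Real.log ‖g2 θ‖ := by ring
    rw [h2]
    refine (abs_add_le _ _).trans (add_le_add ?_ (hlog2 θ))
    rw [abs_neg, abs_div, abs_of_pos hk2R]
    exact div_le_self (abs_nonneg _) hk2R1
  have hΛ2R : ∀ θ, R2 ≤ ‖Λ2 θ‖ := by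
    intro θ
    have h1 := (abs_le.1 (hΛ2log θ)).1
    have h2 : Real.log R2 ≤ Real.log ‖Λ2 θ‖ := by
      have h3 : Real.log R2 + C2 ≤ T / k2 := by
        rw [le_div_iff₀ hk2R]
        linarith
      linarith
    exact (Real.log_le_log_iff (by linarith) (norm_pos_iff.2 (hΛ2g.ne_zero θ))).1 h2
  have hΛ2lw : ∀ j θ, ‖lw Λ2 j θ‖ ≤ δ0 := by
    intro j θ
    have h1 := lw_mul (good_const (d := D) hκ20) hg2 j θ
    rw [lw_const, zero_add] at h1
    have h2 : lw Λ2 j θ = _ := h1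
    rw [h2]
    exact hlw2 j θ
  have hΛ2k : ∀ θ, σ (V.coeff v') * Λ2 θ ^ k2 = H θ + c := by
    intro θ
    have h3 := heq2 θ
    simp only [hΛ2]
    rw [mul_pow, hκ2, h3]
    simp only [hu2]
    field_simp
    ring
  obtain ⟨Y, hYg, hYp, hYlog, hYlw, hYeq⟩ := hz2 D q Λ2 hΛ2g hΛ2p hΛ2R hΛ2lw
  refine ⟨Y, hYg, hYp, fun i θ => ?_, fun i j θ => ?_, fun θ => (hYeq θ).trans (hΛ2k θ)⟩
  · rw [hk2zR]
    refine lt_of_le_of_lt ?_ hδle
    have h1 := hYlog i θ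
    have h2 := hΛ2log θ
    have h3 : Real.log ‖Y i θ‖ / T - be i / k2 =
        ((Real.log ‖Y i θ‖ - be i * Real.log ‖Λ2 θ‖) +
          be i * (Real.log ‖Λ2 θ‖ - T / k2)) / T := by
      field_simp
      ring
    rw [h3, abs_div, abs_of_pos hTpos, div_le_iff₀ hTpos]
    refine (abs_add_le _ _).trans ?_
    rw [abs_mul]
    have h4 : |(be i : ℝ)| * |Real.log ‖Λ2 θ‖ - T / k2| ≤ A * C2 :=
      mul_le_mul (hBi i) h2 (abs_nonneg _) (by linarith)
    have h5 : (A * C2 + δ0) / δ0 ≤ T := by linarith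
    rw [div_le_iff₀ hδ0pos] at h5
    have h6 : T * δ0 ≤ 3 * (A * δ0) * T := by
      have : δ0 ≤ 3 * (A * δ0) := by linarith
      nlinarith
    linarith
  · refine lt_of_le_of_lt ?_ hδle
    have h1 := hYlw i j θ
    have h2 := hΛ2lw j θ
    have e1 : lw (Y i) j θ - 2 * Real.pi * Complex.I *
        (∑ l, if j = q l then (bdir v' i0' l i : ℂ) else 0) =
        (lw (Y i) j θ - (be i * lw Λ2 j θ + 2 * Real.pi * Complex.I *
          ∑ l, if j = q l then (bdir v' i0' l i : ℂ) else 0)) +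
        be i * lw Λ2 j θ := by
      ring
    rw [e1]
    refine (norm_add_le _ _).trans ?_
    rw [norm_mul, Complex.norm_intCast]
    have h4 : |(be i : ℝ)| * ‖lw Λ2 j θ‖ ≤ A * δ0 :=
      mul_le_mul (hBi i) h2 (norm_nonneg _) (by linarith)
    linarith

end Pool.Agent.V7H50.SF
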