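import Pool.Agent.N65.TE.Defs
import Pool.Agent.N65.TL.Lau
set_option autoImplicit false

/-!
The fibrations `W_0(z_0) = F_0(x)`, ..., `W_k(z_k) = F_k(x)` over the affine space with the
coordinates `x_1, ..., x_k`: definitions.
-/

namespace Pool.Agent.V7H50.SF

open Pool.Agent.TH826.MK (KQ symb Unramified Torus)

open Pool.Agent.N65.TL Pool.Agent.N65.TD Pool.Agent.N65.TE

/-- The names of the variables `z_{j,i}`, `0 ≤ j ≤ k`, `0 ≤ i ≤ s_j`. -/
abbrev Vars {k : ℕ} (s : Fin (k + 1) → ℕ) : Type := Σ j : Fin (k + 1), Fin (s j + 1)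

section infinity

variable {K : Type*} [Field K] {k : ℕ}

/-- `T = ∑_i ε_i x ^ (m_i)` with roots of unity `ε_i` and affinely independent exponents `m_i` of
weight `M`, and only variables of positive weight occur. -/
def HomSimplex (w : Fin k → ℕ) (M : ℕ) (T : MvPolynomial (Fin k) K) : Prop :=
  ∃ (d : ℕ) (m : Fin (d + 1) → Fin k →₀ ℕ) (ε : Fin (d + 1) → K),
    AffineIndependent ℤ (fun i j => (m i j : ℤ)) ∧ (∀ i, ∃ n : ℕ, n ≠ 0 ∧ ε i ^ n = 1) ∧
    (∀ i, Finsupp.weight w (m i) = M) ∧ (∀ i j, w j = 0 → m i j = 0) ∧
    T = ∑ i, MvPolynomial.monomial (m i) (ε i)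

/-- The sum of the terms of `G` of the largest weight. -/
noncomputable def topPart (w : Fin k → ℕ) (G : MvPolynomial (Fin k) K) : MvPolynomial (Fin k) K :=
  MvPolynomial.weightedHomogeneousComponent w (MvPolynomial.weightedTotalDegree w G) G

/-- Integral coefficients, and for all nonzero weights `w` the weighted degree is positive and the
terms of the largest weight form a product of polynomials `∑_i ε_i x ^ (m_i)` as above. -/
structure ProductAtInfinity (G : MvPolynomial (Fin k) K) : Prop where
  /-- integral coefficients -/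
  int : ∀ m, IsIntegral ℤ (G.coeff m)
  /-- the faces at infinity -/
  faces : ∀ w : Fin k → ℕ, w ≠ 0 → 0 < MvPolynomial.weightedTotalDegree w G ∧
    ∃ (r : ℕ) (M : Fin r → ℕ) (T : Fin r → MvPolynomial (Fin k) K),
      (∀ i, HomSimplex w (M i) (T i)) ∧ topPart w G = ∏ i, T i

/-- Integral coefficients, and for all nonzero weights `w` the weighted degree is positive and the
terms of the largest weight form a power of a polynomial `∑_i ε_i x ^ (m_i)` as above. -/
structure PowerAtInfinity (G : MvPolynomial (Fin k) K) : Prop where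
  /-- integral coefficients -/
  int : ∀ m, IsIntegral ℤ (G.coeff m)
  /-- the faces at infinity -/
  faces : ∀ w : Fin k → ℕ, w ≠ 0 → 0 < MvPolynomial.weightedTotalDegree w G ∧
    ∃ (n M : ℕ) (T : MvPolynomial (Fin k) K), HomSimplex w M T ∧ topPart w G = T ^ n

end infinity

section ring

variable {K : Type*} [Field K] {k D : ℕ} {s : Fin (k + 1) → ℕ}

/-- The Laurent polynomials in all variables `z_{j,i}` over the polynomials in `x_1, ..., x_k`. -/
def ARing (K : Type*) [Field K] (k D : ℕ) : Type _ := LP (MvPolynomial (Fin k) K) (D + 1)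

noncomputable instance (K : Type*) [Field K] (k D : ℕ) : CommRing (ARing K k D) :=
  AddMonoidAlgebra.commRing

/-- The polynomials in `x`. -/
noncomputable def ax (D : ℕ) : MvPolynomial (Fin k) K →+* ARing K k D :=
  AddMonoidAlgebra.singleZeroRingHom

/-- The units `z_{j,i}`; the variables are numbered by `e`. -/
noncomputable def az (K : Type*) [Field K] (e : Fin (D + 1) ≃ Vars s) (w : Vars s) :
    (ARing K k D)ˣ := (zlau (e.symm w) : (LP (MvPolynomial (Fin k) K) (D + 1))ˣ)

/-- The value of the Laurent polynomial `W` at the variables `z_{j,i}`, `0 ≤ i ≤ s_j`. -/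
noncomputable def aW (e : Fin (D + 1) ≃ Vars s) (j : Fin (k + 1)) (W : LP K (s j + 1)) :
    ARing K k D :=
  lev ((ax D).comp MvPolynomial.C) (fun i => az K e ⟨j, i⟩) W

variable (e : Fin (D + 1) ≃ Vars s) (W : ∀ j, LP K (s j + 1))
  (F : Fin (k + 1) → MvPolynomial (Fin k) K)

/-- The ideal generated by the `W_j(z_j) - F_j(x)`. -/
noncomputable def aideal : Ideal (ARing K k D) :=
  Ideal.span (Set.range fun j => aW e j (W j) - ax D (F j))

/-- The coordinate ring of the variety `W_j(z_j) = F_j(x)`, `z_{j,i} ≠ 0`. -/
def SRing : Type _ := ARing K k D ⧸ aideal e W F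

noncomputable instance : CommRing (SRing e W F) := Ideal.Quotient.commRing (aideal e W F)

/-- The restriction of functions. -/
noncomputable def smk : ARing K k D →+* SRing e W F := Ideal.Quotient.mk (aideal e W F)

/-- The polynomials in `x` as functions on the variety. -/
noncomputable def sx : MvPolynomial (Fin k) K →+* SRing e W F := (smk e W F).comp (ax D)

/-- The constants as functions on the variety. -/
noncomputable def scst : K →+* SRing e W F := (sx e W F).comp MvPolynomial.C

/-- The units `z_{j,i}`. -/
noncomputable def sz (w : Vars s) : (SRing e W F)ˣ :=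
  Units.map (smk e W F : ARing K k D →* SRing e W F) (az K e w)

/-- The symbol with the entries `z_{j,i}`. -/
noncomputable def ssym : KQ (SRing e W F) (D + 1) := symb fun l => sz e W F (e l)

/-- The symbol has an unramified image in the Milnor K-theory of all fields `L` with a homomorphism
from the coordinate ring. -/
def Unram.{u, v} {K : Type u} [Field K] {k D : ℕ} {s : Fin (k + 1) → ℕ}
    (e : Fin (D + 1) ≃ Vars s) (W : ∀ j, LP K (s j + 1))
    (F : Fin (k + 1) → MvPolynomial (Fin k) K) : Prop :=
  ∀ (L : Type v) [Field L] (f : SRing e W F →+* L), KQ.map _ f (ssym e W F) ∈ Unramified L _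

/-- There is a torus in the complex points (over `σ`) of the variety, such that the quotient of the
regulator of the symbol on this torus and of `τ` differs from `q` by at most `ε`. -/
def HasReg (σ : K →+* ℂ) (τ q ε : ℝ) : Prop :=
  ∃ Γ : Torus (SRing e W F) D, (∀ θ (x : K), Γ.e θ (scst e W F x) = σ x) ∧
    |Γ.reg (ssym e W F) / τ - q| ≤ ε

end ring

/-- The polynomials `F_0 = G(x_1, ..., x_k)` and `F_j = f_j(x_j)`. -/
noncomputable def sumF {K : Type*} [Field K] {k : ℕ} (f : Fin k → Polynomial K)
    (G : MvPolynomial (Fin k) K) : Fin (k + 1) → MvPolynomial (Fin k) K :=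
  Fin.cons G fun j => Polynomial.aeval (MvPolynomial.X j : MvPolynomial (Fin k) K) (f j)

end Pool.Agent.V7H50.SF
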