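import Pool.Agent.V7H50.SF.Alg
set_option autoImplicit false

/-!
Places where some coordinates have poles.
-/

namespace Pool.Agent.V7H50.SF

open scoped WithZero

open Pool.Agent.TH826.MK

open Pool.Agent.TH826.SX (symb_self symb_upd_one)

open Pool.Agent.N65.TL Pool.Agent.N65.TD Pool.Agent.N65.TE

section eval

variable {K : Type*} [Field K] {k : ℕ} {L : Type*} [Field L] (φ : K →+* L) (v : Valuation L ℤᵐ⁰)

theorem val_mvpoly_le {P : MvPolynomial (Fin k) K}
    (hP : ∀ m, IsIntegral ℤ (P.coeff m)) {x : Fin k → L} (hx : ∀ j, v (x j) ≤ 1) :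
    v (P.eval₂ φ x) ≤ 1 := by
  rw [MvPolynomial.eval₂_eq']
  refine Valuation.map_sum_le v fun m _ => ?_
  rw [map_mul, map_prod]
  refine mul_le_one' (val_le_one_of_integral v (map_isIntegral_int φ (hP m))) ?_
  refine Finset.prod_le_one' fun j _ => ?_
  rw [map_pow]
  exact pow_le_one' (hx j) _

theorem val_prod_le {x : Fin k → L} {w : Fin k → ℕ} (hx : ∀ j, v (x j) ≤ WithZero.exp (w j : ℤ))
    (m : Fin k →₀ ℕ) :
    v (∏ j, x j ^ m j) ≤ WithZero.exp ((Finsupp.weight w m : ℕ) : ℤ) := by
  have h1 : ∀ t : Finset (Fin k), v (∏ j ∈ t, x j ^ m j) ≤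
      WithZero.exp ((∑ j ∈ t, m j * w j : ℕ) : ℤ) := by
    intro t
    induction t using Finset.induction_on with
    | empty => simp
    | insert j t hj ih =>
      rw [Finset.prod_insert hj, Finset.sum_insert hj, Nat.cast_add, WithZero.exp_add, map_mul,
        map_pow]
      refine mul_le_mul' ?_ ih
      have h2 : WithZero.exp ((m j * w j : ℕ) : ℤ) = WithZero.exp (w j : ℤ) ^ m j := by
        rw [← WithZero.exp_nsmul, nsmul_eq_mul, Nat.cast_mul]
      rw [h2]
      exact pow_le_pow_left' (hx j) _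
  have h3 : Finsupp.weight w m = ∑ j, m j * w j := by
    rw [Finsupp.weight_eq_sum]
    rfl
  rw [h3]
  exact h1 Finset.univ

theorem val_sub_top {G : MvPolynomial (Fin k) K} (hG : ∀ m, IsIntegral ℤ (G.coeff m))
    {x : Fin k → L} {w : Fin k → ℕ} (hx : ∀ j, v (x j) ≤ WithZero.exp (w j : ℤ)) :
    v (G.eval₂ φ x - (topPart w G).eval₂ φ x) <
      WithZero.exp ((MvPolynomial.weightedTotalDegree w G : ℕ) : ℤ) := by
  classical
  have h1 : G.eval₂ φ x - (topPart w G).eval₂ φ x = (G - topPart w G).eval₂ φ x :=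
    (map_sub (MvPolynomial.eval₂Hom φ x) G (topPart w G)).symm
  rw [h1, MvPolynomial.eval₂_eq']
  refine Valuation.map_sum_lt v WithZero.exp_ne_zero fun m hm => ?_
  have h2 := MvPolynomial.mem_support_iff.1 hm
  have h3 : (G - topPart w G).coeff m = if Finsupp.weight w m =
      MvPolynomial.weightedTotalDegree w G then 0 else G.coeff m := by
    unfold topPart
    rw [MvPolynomial.coeff_sub, MvPolynomial.coeff_weightedHomogeneousComponent]
    split_ifs
    · rw [sub_self]
    · rw [sub_zero]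
  have h4 : Finsupp.weight w m ≠ MvPolynomial.weightedTotalDegree w G := by
    intro h
    apply h2
    rw [h3, if_pos h]
  rw [h3, if_neg h4] at h2
  rw [h3, if_neg h4, map_mul]
  have h5 : Finsupp.weight w m ≤ MvPolynomial.weightedTotalDegree w G :=
    MvPolynomial.le_weightedTotalDegree w (MvPolynomial.mem_support_iff.2 h2)
  have h6 : Finsupp.weight w m < MvPolynomial.weightedTotalDegree w G := lt_of_le_of_ne h5 h4
  calc v (φ (G.coeff m)) * v (∏ j, x j ^ m j)
      ≤ 1 * WithZero.exp ((Finsupp.weight w m : ℕ) : ℤ) :=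
        mul_le_mul' (val_le_one_of_integral v (map_isIntegral_int φ (hG m)))
          (val_prod_le v hx m)
    _ < WithZero.exp ((MvPolynomial.weightedTotalDegree w G : ℕ) : ℤ) := by
      rw [one_mul]
      exact WithZero.exp_lt_exp.2 (by exact_mod_cast h6)

end eval

section simplex

variable {K : Type*} [Field K] {k n : ℕ}

/-- the exponents of the variables `x_(b i)` -/
def res (b : Fin n → Fin k) (m : Fin k →₀ ℕ) : Fin n → ℤ := fun i => (m (b i) : ℤ)

theorem affineIndependent_res {b : Fin n → Fin k} {d : ℕ} {m : Fin (d + 1) → Fin k →₀ ℕ}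
    (hm : AffineIndependent ℤ (fun i j => (m i j : ℤ)))
    (h0 : ∀ i j, (∀ l, b l ≠ j) → m i j = 0) : AffineIndependent ℤ fun i => res b (m i) := by
  rw [affineIndependent_iff]
  intro s c hc0 hc i hi
  refine (affineIndependent_iff.1 hm) s c hc0 ?_ i hi
  funext j
  by_cases hj : ∃ l, b l = j
  · obtain ⟨l, rfl⟩ := hj
    have h1 := congrFun hc l
    rw [Finset.sum_apply] at h1 ⊢
    exact h1
  · rw [Finset.sum_apply]
    refine Finset.sum_eq_zero fun i _ => ?_
    rw [Pi.smul_apply, h0 i j fun l hl => hj ⟨l, hl⟩]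
    simp

variable {L : Type*} [Field L]

theorem mon_res {b : Fin n → Fin k} (hb : Function.Injective b) {m : Fin k →₀ ℕ}
    (h0 : ∀ j, (∀ l, b l ≠ j) → m j = 0) {x : Fin k → L} {z : Fin n → Lˣ}
    (hz : ∀ i, (z i : L) = x (b i)) : ((mon z (res b m) : Lˣ) : L) = ∏ j, x j ^ m j := by
  classical
  unfold mon res
  rw [Units.coe_prod]
  have h1 : ∏ j, x j ^ m j = ∏ j ∈ Finset.univ.image b, x j ^ m j := by
    refine (Finset.prod_subset (Finset.subset_univ _) fun j _ hj => ?_).symm
    rw [h0 j fun l hl => hj (Finset.mem_image.2 ⟨l, Finset.mem_univ _, hl⟩), pow_zero]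
  rw [h1, Finset.prod_image fun i _ j _ hij => hb hij]
  refine Finset.prod_congr rfl fun i _ => ?_
  rw [zpow_natCast, Units.val_pow_eq_pow_val, hz]

theorem weight_res {b : Fin n → Fin k} (hb : Function.Injective b) {m : Fin k →₀ ℕ}
    (h0 : ∀ j, (∀ l, b l ≠ j) → m j = 0) (w : Fin k → ℕ) :
    ∑ i, (w (b i) : ℤ) * res b m i = ((Finsupp.weight w m : ℕ) : ℤ) := by
  classical
  unfold res
  have h3 : Finsupp.weight w m = ∑ j, m j * w j := by
    rw [Finsupp.weight_eq_sum]
    rfl
  have h1 : ∑ j, m j * w j = ∑ j ∈ Finset.univ.image b, m j * w j := by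
    refine (Finset.sum_subset (Finset.subset_univ _) fun j _ hj => ?_).symm
    rw [h0 j fun l hl => hj (Finset.mem_image.2 ⟨l, Finset.mem_univ _, hl⟩), zero_mul]
  rw [h3, h1, Finset.sum_image fun i _ j _ hij => hb hij]
  push_cast
  exact Finset.sum_congr rfl fun i _ => mul_comm _ _

/-- A polynomial of simplex type in the variables of positive weight as a Laurent polynomial. -/
theorem HomSimplex.exists_lp {w : Fin k → ℕ} {M : ℕ} {T : MvPolynomial (Fin k) K}
    (hT : HomSimplex w M T) (φ : K →+* L) {b : Fin n → Fin k} (hb : Function.Injective b)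
    (hbw : ∀ j, w j ≠ 0 → ∃ l, b l = j) {x : Fin k → L} {z : Fin n → Lˣ}
    (hz : ∀ i, (z i : L) = x (b i)) :
    ∃ (d : ℕ) (m : Fin (d + 1) → Fin n → ℤ) (ε : Fin (d + 1) → K), AffineIndependent ℤ m ∧
      (∀ i, ∃ n : ℕ, n ≠ 0 ∧ ε i ^ n = 1) ∧ (∀ i, ∑ l, (w (b l) : ℤ) * m i l = M) ∧
      T.eval₂ φ x = lev φ z (∑ i, AddMonoidAlgebra.single (m i) (ε i)) := by
  obtain ⟨d, m, ε, hm, hε, hM, h0, rfl⟩ := hT
  have h0' : ∀ i j, (∀ l, b l ≠ j) → m i j = 0 := by
    intro i j hj
    apply h0
    by_contra hw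
    obtain ⟨l, hl⟩ := hbw j hw
    exact hj l hl
  refine ⟨d, fun i => res b (m i), ε, affineIndependent_res hm h0', hε, fun i => ?_, ?_⟩
  · rw [weight_res hb (h0' i), hM]
  · rw [MvPolynomial.eval₂_sum, map_sum]
    refine Finset.sum_congr rfl fun i _ => ?_
    rw [lev_single, mon_res hb (h0' i) hz, MvPolynomial.eval₂_monomial, Finsupp.prod_fintype]
    intro j
    rw [pow_zero]

theorem HomSimplex.isWeightedHomogeneous {w : Fin k → ℕ} {M : ℕ} {T : MvPolynomial (Fin k) K}
    (hT : HomSimplex w M T) : MvPolynomial.IsWeightedHomogeneous w T M := by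
  obtain ⟨d, m, ε, hm, hε, hM, h0, rfl⟩ := hT
  exact MvPolynomial.IsWeightedHomogeneous.sum _ _ _ fun i _ =>
    MvPolynomial.isWeightedHomogeneous_monomial w (m i) (ε i) (hM i)

theorem topPart_ne_zero {w : Fin k → ℕ} {G : MvPolynomial (Fin k) K}
    (h : 0 < MvPolynomial.weightedTotalDegree w G) : topPart w G ≠ 0 := by
  classical
  intro h0
  have hG : G ≠ 0 := by
    rintro rfl
    rw [MvPolynomial.weightedTotalDegree_zero] at h
    exact lt_irrefl _ h
  obtain ⟨m, hm, hmax⟩ := Finset.exists_mem_eq_sup G.support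
    (MvPolynomial.support_nonempty.2 hG) (fun s => Finsupp.weight w s)
  have h1 : (topPart w G).coeff m = G.coeff m := by
    unfold topPart
    rw [MvPolynomial.coeff_weightedHomogeneousComponent, if_pos]
    exact hmax.symm
  rw [h0, MvPolynomial.coeff_zero] at h1
  exact (MvPolynomial.mem_support_iff.1 hm) h1.symm

theorem topPart_hom {w : Fin k → ℕ} {G : MvPolynomial (Fin k) K} :
    MvPolynomial.IsWeightedHomogeneous w (topPart w G) (MvPolynomial.weightedTotalDegree w G) :=
  MvPolynomial.weightedHomogeneousComponent_isWeightedHomogeneous _ _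

/-- The terms of positive weight do not change if a constant is added. -/
theorem topPart_add_C {w : Fin k → ℕ} {G : MvPolynomial (Fin k) K}
    (h : 0 < MvPolynomial.weightedTotalDegree w G) (c : K) :
    MvPolynomial.weightedTotalDegree w (G + MvPolynomial.C c) =
      MvPolynomial.weightedTotalDegree w G ∧
    topPart w (G + MvPolynomial.C c) = topPart w G := by
  classical
  have hG : G ≠ 0 := by
    rintro rfl
    rw [MvPolynomial.weightedTotalDegree_zero] at h
    exact lt_irrefl _ h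
  have hco : ∀ m, 0 < Finsupp.weight w m → (G + MvPolynomial.C c).coeff m = G.coeff m := by
    intro m hm
    rw [MvPolynomial.coeff_add, MvPolynomial.coeff_C, if_neg, add_zero]
    rintro rfl
    rw [map_zero] at hm
    exact lt_irrefl _ hm
  have hdeg : MvPolynomial.weightedTotalDegree w (G + MvPolynomial.C c) =
      MvPolynomial.weightedTotalDegree w G := by
    apply le_antisymm
    · refine Finset.sup_le fun m hm => ?_
      rcases Nat.eq_zero_or_pos (Finsupp.weight w m) with h0 | h0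
      · rw [h0]
        exact Nat.zero_le _
      · refine MvPolynomial.le_weightedTotalDegree w ?_
        rw [MvPolynomial.mem_support_iff, ← hco m h0]
        exact MvPolynomial.mem_support_iff.1 hm
    · obtain ⟨m, hm, hmax⟩ := Finset.exists_mem_eq_sup G.support
        (MvPolynomial.support_nonempty.2 hG) (fun s => Finsupp.weight w s)
      have h1 : MvPolynomial.weightedTotalDegree w G = Finsupp.weight w m := hmax
      rw [h1] at h ⊢
      refine MvPolynomial.le_weightedTotalDegree w ?_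
      rw [MvPolynomial.mem_support_iff, hco m h]
      exact MvPolynomial.mem_support_iff.1 hm
  refine ⟨hdeg, ?_⟩
  ext m
  unfold topPart
  rw [hdeg, MvPolynomial.coeff_weightedHomogeneousComponent,
    MvPolynomial.coeff_weightedHomogeneousComponent]
  split_ifs with h1
  · rw [hco m (by rw [h1]; exact h)]
  · rfl

theorem integral_add_C {G : MvPolynomial (Fin k) K} (hG : ∀ m, IsIntegral ℤ (G.coeff m)) {c : K}
    (hc : IsIntegral ℤ c) (m : Fin k →₀ ℕ) : IsIntegral ℤ ((G + MvPolynomial.C c).coeff m) := by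
  classical
  rw [MvPolynomial.coeff_add, MvPolynomial.coeff_C]
  refine (hG m).add ?_
  split_ifs
  · exact hc
  · exact isIntegral_zero

theorem ProductAtInfinity.add_C {G : MvPolynomial (Fin k) K} (hG : ProductAtInfinity G) {c : K}
    (hc : IsIntegral ℤ c) : ProductAtInfinity (G + MvPolynomial.C c) where
  int := integral_add_C hG.int hc
  faces w hw := by
    obtain ⟨h, r, M, T, hT, htop⟩ := hG.faces w hw
    obtain ⟨h1, h2⟩ := topPart_add_C h c
    rw [h1, h2]
    exact ⟨h, r, M, T, hT, htop⟩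

theorem PowerAtInfinity.add_C {G : MvPolynomial (Fin k) K} (hG : PowerAtInfinity G) {c : K}
    (hc : IsIntegral ℤ c) : PowerAtInfinity (G + MvPolynomial.C c) where
  int := integral_add_C hG.int hc
  faces w hw := by
    obtain ⟨h, n, M, T, hT, htop⟩ := hG.faces w hw
    obtain ⟨h1, h2⟩ := topPart_add_C h c
    rw [h1, h2]
    exact ⟨h, n, M, T, hT, htop⟩

end simplex

section mem

variable {K : Type*} [Field K] {k n N : ℕ} {L : Type*} [Field L] (φ : K →+* L)
  (v : Valuation L ℤᵐ⁰)

theorem coeff_simplex_ne {d : ℕ} {m : Fin (d + 1) → Fin n → ℤ} {ε : Fin (d + 1) → K}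
    (hm : AffineIndependent ℤ m) (hε : ∀ i, ∃ n : ℕ, n ≠ 0 ∧ ε i ^ n = 1) (i : Fin (d + 1)) :
    (∑ i, AddMonoidAlgebra.single (m i) (ε i) : LP K n).coeff (m i) ≠ 0 := by
  have hε0 : ∀ i, ε i ≠ 0 := by
    intro i h0
    obtain ⟨k', hk', hk1⟩ := hε i
    rw [h0, zero_pow hk'] at hk1
    exact zero_ne_one hk1
  rw [AddMonoidAlgebra.coeff_sum, Finsupp.finsetSum_apply, Finset.sum_eq_single i]
  · rw [AddMonoidAlgebra.coeff_single, Finsupp.single_eq_same]
    exact hε0 i
  · intro j _ hj
    rw [AddMonoidAlgebra.coeff_single]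
    exact Finsupp.single_eq_of_ne fun h => hj (hm.injective h).symm
  · intro h
    exact absurd (Finset.mem_univ _) h

/-- If the value of a polynomial of simplex type is smaller than its terms, the symbols which
contain the coordinates lie in the unit part. -/
theorem mem_of_small {w : Fin k → ℕ} {M : ℕ} {T : MvPolynomial (Fin k) K} (hT : HomSimplex w M T)
    {b : Fin n → Fin k} (hb : Function.Injective b) (hbw : ∀ j, w j ≠ 0 → ∃ l, b l = j)
    {x : Fin k → L} (c : Fin N → Lˣ) {p : Fin n → Fin N} (hp : Function.Injective p)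
    (hz : ∀ i, (c (p i) : L) = x (b i)) (hv : ∀ i, v (c (p i) : L) = WithZero.exp (w (b i) : ℤ))
    (hlt : v (T.eval₂ φ x) < WithZero.exp (M : ℤ)) : symb c ∈ unitPart v N := by
  obtain ⟨d, m, ε, hm, hε, hM, he⟩ := hT.exists_lp φ hb hbw (z := fun i => c (p i)) hz
  refine mem_unitPart_of_tame φ v c hp (SimplexType.tame ⟨d, m, ε, hm, hε, rfl⟩) (m0 := m 0)
    (coeff_simplex_ne hm hε 0) ?_
  rw [← he, val_mon v _ hv, hM]
  exact hlt

theorem val_top_prod {w : Fin k → ℕ} {G : MvPolynomial (Fin k) K}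
    (hG : 0 < MvPolynomial.weightedTotalDegree w G) {r : ℕ} {M : Fin r → ℕ}
    {T : Fin r → MvPolynomial (Fin k) K} (hT : ∀ i, HomSimplex w (M i) (T i))
    (htop : topPart w G = ∏ i, T i) : MvPolynomial.weightedTotalDegree w G = ∑ i, M i := by
  refine MvPolynomial.IsWeightedHomogeneous.inj_right (topPart_ne_zero hG) topPart_hom ?_
  rw [htop]
  exact MvPolynomial.IsWeightedHomogeneous.prod _ _ _ fun i _ => (hT i).isWeightedHomogeneous

theorem exp_sum {r : ℕ} (M : Fin r → ℕ) :
    WithZero.exp ((∑ i, M i : ℕ) : ℤ) = ∏ i, WithZero.exp (M i : ℤ) := by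
  have h1 : ∀ t : Finset (Fin r), WithZero.exp ((∑ i ∈ t, M i : ℕ) : ℤ) =
      ∏ i ∈ t, WithZero.exp (M i : ℤ) := by
    intro t
    induction t using Finset.induction_on with
    | empty => simp
    | insert j t hj ih =>
      rw [Finset.prod_insert hj, Finset.sum_insert hj, Nat.cast_add, WithZero.exp_add, ih]
  exact h1 Finset.univ

/-- The case of a first block with simplex faces. -/
theorem mem_of_product {s0 : ℕ} {W : LP K s0} (hW : SimplexFaces W)
    {G : MvPolynomial (Fin k) K} (hG : ProductAtInfinity G) {w : Fin k → ℕ} (hw : w ≠ 0)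
    {b : Fin n → Fin k} (hb : Function.Injective b) (hbw : ∀ j, w j ≠ 0 → ∃ l, b l = j)
    {x : Fin k → L} (hx : ∀ j, v (x j) ≤ WithZero.exp (w j : ℤ)) (c : Fin N → Lˣ)
    {p : Fin n → Fin N} (hp : Function.Injective p) (hz : ∀ i, (c (p i) : L) = x (b i))
    (hv : ∀ i, v (c (p i) : L) = WithZero.exp (w (b i) : ℤ)) {p0 : Fin s0 → Fin N}
    (hp0 : Function.Injective p0) (hdisj : ∀ i l, p i ≠ p0 l)
    (hlev : lev φ (fun i => c (p0 i)) W = G.eval₂ φ x) : symb c ∈ unitPart v N := by
  classical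
  obtain ⟨hdeg, r, M, T, hT, htop⟩ := hG.faces w hw
  have hsub := val_sub_top φ v hG.int hx
  have hD := val_top_prod hdeg hT htop
  have htv : (topPart w G).eval₂ φ x = ∏ i, (T i).eval₂ φ x := by
    rw [htop]
    exact map_prod (MvPolynomial.eval₂Hom φ x) T Finset.univ
  rcases lt_or_ge (v (G.eval₂ φ x))
    (WithZero.exp ((MvPolynomial.weightedTotalDegree w G : ℕ) : ℤ)) with hlt | hge
  · have h1 : v ((topPart w G).eval₂ φ x) <
        WithZero.exp ((MvPolynomial.weightedTotalDegree w G : ℕ) : ℤ) := by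
      have h2 : (topPart w G).eval₂ φ x =
          G.eval₂ φ x - (G.eval₂ φ x - (topPart w G).eval₂ φ x) := by ring
      rw [h2]
      exact (v.map_sub _ _).trans_lt (max_lt hlt hsub)
    rw [htv, hD, exp_sum, map_prod] at h1
    obtain ⟨i, hi⟩ : ∃ i, v ((T i).eval₂ φ x) < WithZero.exp (M i : ℤ) := by
      by_contra hcon
      push Not at hcon
      exact absurd h1 (not_lt.2 (Finset.prod_le_prod' fun i _ => hcon i))
    exact mem_of_small φ v (hT i) hb hbw c hp hz hv hi
  · have hbig : 1 < v (G.eval₂ φ x) := by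
      refine lt_of_lt_of_le ?_ hge
      rw [← WithZero.exp_zero, WithZero.exp_lt_exp]
      exact_mod_cast hdeg
    have hne : G.eval₂ φ x ≠ 0 := by
      intro h2
      rw [h2, map_zero] at hbig
      exact absurd hbig (not_lt.2 zero_le_one)
    refine block_replace φ v c hp0 hW (Units.mk0 _ hne) hlev.symm hbig fun c' hc' hc'X => ?_
    obtain ⟨i0, hi0⟩ := hc'X
    have hc'p : ∀ i, c' (p i) = c (p i) := fun i => hc' _ fun l => (hdisj i l).symm
    choose d m ε hm hε hM he using fun i =>
      (hT i).exists_lp φ hb hbw (z := fun i => c (p i)) hz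
    refine mem_unitPart_of_product φ v c' hp
      (G := ∏ i, (∑ l, AddMonoidAlgebra.single (m i l) (ε i l) : LP K n))
      ⟨r, fun i => ∑ l, AddMonoidAlgebra.single (m i l) (ε i l),
        fun i => ⟨d i, m i, ε i, hm i, hε i, rfl⟩, rfl⟩ (l0 := p0 i0)
      (fun i => hdisj i i0) ?_
    have h3 : lev φ (fun j => c' (p j))
        (∏ i, (∑ l, AddMonoidAlgebra.single (m i l) (ε i l) : LP K n)) =
        (topPart w G).eval₂ φ x := by
      rw [funext hc'p, map_prod, htv]
      exact Finset.prod_congr rfl fun i _ => (he i).symm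
    rw [h3, hi0, Units.val_mk0]
    exact hsub.trans_le hge

/-- The case of a first block with product faces. -/
theorem mem_of_power {s0 : ℕ} {W : LP K s0} (hW : ProductFaces W)
    {G : MvPolynomial (Fin k) K} (hG : PowerAtInfinity G) {w : Fin k → ℕ} (hw : w ≠ 0)
    {b : Fin n → Fin k} (hb : Function.Injective b) (hbw : ∀ j, w j ≠ 0 → ∃ l, b l = j)
    {x : Fin k → L} (hx : ∀ j, v (x j) ≤ WithZero.exp (w j : ℤ)) (c : Fin N → Lˣ)
    {p : Fin n → Fin N} (hp : Function.Injective p) (hz : ∀ i, (c (p i) : L) = x (b i))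
    (hv : ∀ i, v (c (p i) : L) = WithZero.exp (w (b i) : ℤ)) {p0 : Fin s0 → Fin N}
    (hp0 : Function.Injective p0) (hdisj : ∀ i l, p i ≠ p0 l)
    (hlev : lev φ (fun i => c (p0 i)) W = G.eval₂ φ x) : symb c ∈ unitPart v N := by
  classical
  obtain ⟨hdeg, n', M, T, hT, htop⟩ := hG.faces w hw
  have hsub := val_sub_top φ v hG.int hx
  have hD : MvPolynomial.weightedTotalDegree w G = n' * M := by
    refine MvPolynomial.IsWeightedHomogeneous.inj_right (topPart_ne_zero hdeg) topPart_hom ?_
    rw [htop]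
    exact hT.isWeightedHomogeneous.pow n'
  have hM0 : M ≠ 0 := by
    rintro rfl
    rw [hD, mul_zero] at hdeg
    exact lt_irrefl _ hdeg
  have hn0 : n' ≠ 0 := by
    rintro rfl
    rw [hD, zero_mul] at hdeg
    exact lt_irrefl _ hdeg
  have hexp : WithZero.exp ((MvPolynomial.weightedTotalDegree w G : ℕ) : ℤ) =
      WithZero.exp (M : ℤ) ^ n' := by
    rw [hD, ← WithZero.exp_nsmul, nsmul_eq_mul, Nat.cast_mul]
  have htv : (topPart w G).eval₂ φ x = T.eval₂ φ x ^ n' := by
    rw [htop]
    exact map_pow (MvPolynomial.eval₂Hom φ x) T n'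
  rcases lt_or_ge (v (T.eval₂ φ x)) (WithZero.exp (M : ℤ)) with hlt | hge
  · exact mem_of_small φ v hT hb hbw c hp hz hv hlt
  · have h1 : WithZero.exp ((MvPolynomial.weightedTotalDegree w G : ℕ) : ℤ) ≤
        v ((topPart w G).eval₂ φ x) := by
      rw [hexp, htv, map_pow]
      exact pow_le_pow_left' hge _
    have hvG : v (G.eval₂ φ x) = v ((topPart w G).eval₂ φ x) := by
      have h2 : G.eval₂ φ x =
          (topPart w G).eval₂ φ x + (G.eval₂ φ x - (topPart w G).eval₂ φ x) := by ring
      rw [h2]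
      exact Valuation.map_add_eq_of_lt_left v (hsub.trans_le h1)
    have hM1 : 1 < WithZero.exp (M : ℤ) := by
      rw [← WithZero.exp_zero, WithZero.exp_lt_exp]
      exact_mod_cast Nat.pos_of_ne_zero hM0
    have hbig : 1 < v (G.eval₂ φ x) := by
      rw [hvG]
      refine lt_of_lt_of_le ?_ h1
      rw [← WithZero.exp_zero, WithZero.exp_lt_exp]
      exact_mod_cast hdeg
    have hne : G.eval₂ φ x ≠ 0 := by
      intro h2
      rw [h2, map_zero] at hbig
      exact absurd hbig (not_lt.2 zero_le_one)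
    have hTne : T.eval₂ φ x ≠ 0 := by
      intro h2
      rw [h2, map_zero] at hge
      exact absurd (hM1.trans_le hge) (not_lt.2 zero_le_one)
    obtain ⟨d, m, ε, hm, hε, hM, he⟩ := hT.exists_lp φ hb hbw (z := fun i => c (p i)) hz
    have hε0 : ∀ i, ε i ≠ 0 := by
      intro i h0
      obtain ⟨k', hk', hk1⟩ := hε i
      rw [h0, zero_pow hk'] at hk1
      exact zero_ne_one hk1
    set u : Fin (d + 1) → Lˣ := fun i => Units.mk0 (φ (ε i)) ((map_ne_zero φ).2 (hε0 i)) with hu
    have hu1 : ∀ i, ∃ k : ℕ, k ≠ 0 ∧ u i ^ k = 1 := by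
      intro i
      obtain ⟨k, hk, hk1⟩ := hε i
      refine ⟨k, hk, Units.ext ?_⟩
      rw [Units.val_pow_eq_pow_val, hu, Units.val_mk0, ← map_pow, hk1, map_one, Units.val_one]
    have huv : ∀ i, v (u i : L) = 1 := by
      intro i
      obtain ⟨k, hk, hk1⟩ := hε i
      refine val_root v hk ?_
      rw [hu, Units.val_mk0, ← map_pow, hk1, map_one]
    have hlevT : T.eval₂ φ x = ∑ i, ((u i * mon (fun j => c (p j)) (m i) : Lˣ) : L) := by
      rw [he, map_sum]
      refine Finset.sum_congr rfl fun i _ => ?_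
      rw [lev_single, Units.val_mul]
      rfl
    have hMz : (M : ℤ) ≠ 0 := by exact_mod_cast hM0
    refine mem_unitPart_of_generic v c hp m (linIndep_of_affine hm hMz hM) u hu1
      (Units.mk0 _ hTne) (fun i => ?_) ?_ fun c' hc' hc'X => ?_
    · rw [Units.val_mul, map_mul, huv, one_mul, val_mon v _ hv, hM]
      exact hge
    · rw [Units.val_mk0, ← hlevT, sub_self, map_zero]
      exact (zero_lt_one.trans hM1).trans_le hge
    · obtain ⟨j, hjX⟩ := hc'X
      have hc'0 : ∀ i, c' (p0 i) = c (p0 i) := fun i => hc' _ fun l => hdisj l i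
      have hWt : ∀ a : Fin s0 → ℤ, a ≠ 0 → Tame (face W a) := fun a ha => (hW.faces a ha).tame
      rcases generic_or φ v c' hp0 hW.int hWt (by
        rw [funext hc'0, hlev]
        exact hbig) with hd | ⟨k', m0, hk0, hk, hm0, hmax, hM', heq, hsub'⟩
      · exact hd
      have hcu : c' = Function.update c' (p j) (Units.mk0 _ hTne) := by
        rw [← hjX, Function.update_eq_self]
      have h3 : symb (Function.update c' (p j) (Units.mk0 _ hne)) ∈ unitPart v N := by
        refine mem_unitPart_of_product φ v _ hp0 (hW.faces k' hk0) (l0 := p j)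
          (fun i => (hdisj j i).symm) ?_
        have h4 : (fun i => Function.update c' (p j) (Units.mk0 _ hne) (p0 i)) =
            fun i => c' (p0 i) := by
          funext i
          rw [Function.update_of_ne (hdisj j i).symm]
        rw [h4, Function.update_self, Units.val_mk0, ← hlev, ← funext hc'0, heq]
        exact hsub'
      have h5 : v (((Units.mk0 _ hne : Lˣ) : L) - ((Units.mk0 _ hTne : Lˣ) : L) ^ n') <
          v ((Units.mk0 _ hTne : Lˣ) : L) ^ n' := by
        rw [Units.val_mk0, Units.val_mk0, ← htv]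
        refine (hsub.trans_le ?_)
        rw [hexp]
        exact pow_le_pow_left' hge _
      rw [upd_mem_iff v c' (p j) (x := Units.mk0 _ hTne) (k := n') h5] at h3
      have hG0 : (n' : ℚ) ≠ 0 := by exact_mod_cast hn0
      have h6 := (unitPart v N).smul_mem ((n' : ℚ)⁻¹) h3
      rw [smul_smul, inv_mul_cancel₀ hG0, one_smul] at h6
      rw [hcu]
      exact h6

end mem

section main

variable {K : Type*} [Field K] {k D : ℕ} {s : Fin (k + 1) → ℕ} {L : Type*} [Field L]

/-- The symbols on the fibrations over the affine space lie in the unit parts. -/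
theorem mem_unitPart_sum (φ : K →+* L) (v : Valuation L ℤᵐ⁰) (a : Fin (D + 1) → Lˣ)
    (p : ∀ j : Fin (k + 1), Fin (s j + 1) → Fin (D + 1)) (hp : ∀ j, Function.Injective (p j))
    (hdisj : ∀ j j' i i', j ≠ j' → p j i ≠ p j' i') (hall : ∀ l, ∃ j i, p j i = l)
    {W : ∀ j, LP K (s j + 1)} (hW : ∀ j : Fin k, SimplexFaces (W j.succ))
    {G : MvPolynomial (Fin k) K} (hW0 : SimplexFaces (W 0) ∧ ProductAtInfinity G ∨
      ProductFaces (W 0) ∧ PowerAtInfinity G) {f : Fin k → Polynomial K}
    (hf : ∀ j, MonicInt (f j)) (x : Fin k → L)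
    (h0 : lev φ (fun i => a (p 0 i)) (W 0) = G.eval₂ φ x)
    (h1 : ∀ j : Fin k, lev φ (fun i => a (p j.succ i)) (W j.succ) = (f j).eval₂ φ (x j)) :
    symb a ∈ unitPart v (D + 1) := by
  classical
  have hWt : ∀ j : Fin k, ∀ a : Fin (s j.succ + 1) → ℤ, a ≠ 0 → Tame (face (W j.succ) a) :=
    fun j a ha => SimplexType.tame ((hW j).faces a ha)
  have hW0t : ∀ a : Fin (s 0 + 1) → ℤ, a ≠ 0 → Tame (face (W 0) a) := by
    intro a ha
    rcases hW0 with ⟨hW0, -⟩ | ⟨hW0, -⟩
    · exact SimplexType.tame (hW0.faces a ha)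
    · exact (hW0.faces a ha).tame
  have hW0i : Integral (W 0) := by
    rcases hW0 with ⟨hW0, -⟩ | ⟨hW0, -⟩
    · exact hW0.int
    · exact hW0.int
  have hW0n : Interior (W 0) := by
    rcases hW0 with ⟨hW0, -⟩ | ⟨hW0, -⟩
    · exact hW0.interior
    · exact hW0.interior
  have hGi : ∀ m, IsIntegral ℤ (G.coeff m) := by
    rcases hW0 with ⟨-, hG⟩ | ⟨-, hG⟩
    · exact hG.int
    · exact hG.int
  by_cases hb : ∀ j, v (x j) ≤ 1
  · -- all coordinates are integral
    have hle : ∀ j : Fin (k + 1), v (lev φ (fun i => a (p j i)) (W j)) ≤ 1 := by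
      intro j
      refine Fin.cases ?_ (fun j => ?_) j
      · rw [h0]
        exact val_mvpoly_le φ v hGi hb
      · rw [h1]
        exact val_poly_le φ v (hf j).int (hb j)
    by_cases hz : ∃ j i, v (a (p j i) : L) ≠ 1
    · obtain ⟨j, hz⟩ := hz
      revert hz
      refine Fin.cases (fun hz => ?_) (fun j hz => ?_) j
      · exact mem_unitPart_of_tempered φ v a (hp 0) hW0i hW0n hW0t (hle 0) hz
      · exact mem_unitPart_of_tempered φ v a (hp j.succ) (hW j).int (hW j).interior (hWt j)
          (hle j.succ) hz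
    · push Not at hz
      refine Submodule.subset_span ⟨a, fun l => ?_, rfl⟩
      obtain ⟨j, i, rfl⟩ := hall l
      exact hz j i
  push Not at hb
  -- some coordinates have poles
  set J : Finset (Fin k) := Finset.univ.filter fun j => 1 < v (x j) with hJdef
  have hxJ : ∀ j ∈ J, 1 < v (x j) := fun j hj => (Finset.mem_filter.1 hj).2
  have hxn : ∀ j, j ∉ J → v (x j) ≤ 1 := by
    intro j hj
    by_contra hcon
    exact hj (Finset.mem_filter.2 ⟨Finset.mem_univ _, not_le.1 hcon⟩)
  have hJ0 : ∀ j ∈ J, x j ≠ 0 := by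
    intro j hj h2
    have h3 := hxJ j hj
    rw [h2, map_zero] at h3
    exact absurd h3 (not_lt.2 zero_le_one)
  set xu : Fin k → Lˣ := fun j => if h : x j = 0 then 1 else Units.mk0 (x j) h with hxudef
  have hxu : ∀ j ∈ J, (xu j : L) = x j := by
    intro j hj
    rw [hxudef]
    simp only [dif_neg (hJ0 j hj), Units.val_mk0]
  choose ow how using fun j => exists_ord v (xu j)
  set w : Fin k → ℕ := fun j => if j ∈ J then (ow j).toNat else 0 with hw
  have howpos : ∀ j ∈ J, 0 < ow j := by
    intro j hj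
    have h2 := hxJ j hj
    rw [← hxu j hj, how, ← WithZero.exp_zero, WithZero.exp_lt_exp] at h2
    exact h2
  have hwJ : ∀ j ∈ J, v (x j) = WithZero.exp (w j : ℤ) := by
    intro j hj
    rw [← hxu j hj, how]
    simp only [hw, if_pos hj]
    rw [Int.toNat_of_nonneg (howpos j hj).le]
  have hwn : ∀ j, j ∉ J → w j = 0 := by
    intro j hj
    simp only [hw, if_neg hj]
  have hwx : ∀ j, v (x j) ≤ WithZero.exp (w j : ℤ) := by
    intro j
    by_cases hj : j ∈ J
    · exact (hwJ j hj).le
    · rw [hwn j hj, Nat.cast_zero, WithZero.exp_zero]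
      exact hxn j hj
  have hw0 : w ≠ 0 := by
    obtain ⟨j, hj⟩ := hb
    have hjJ : j ∈ J := Finset.mem_filter.2 ⟨Finset.mem_univ _, hj⟩
    intro h2
    have h3 : w j = 0 := by rw [h2, Pi.zero_apply]
    simp only [hw, if_pos hjJ] at h3
    have := howpos j hjJ
    omega
  refine blocks_pow φ v (fun j : Fin k => p j.succ) (fun j => hp _)
    (fun j j' i i' h => hdisj _ _ _ _ fun h' => h (Fin.succ_injective _ h')) hW xu
    (fun j => (f j).natDegree) (fun j => (hf j).pos) 0 J a (fun j hj => ?_) (fun j hj => ?_)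
    fun c q hc hq => ?_
  · rw [hxu j hj]
    exact hxJ j hj
  · rw [h1, hxu j hj]
    exact val_poly_sub_lt φ v (hf j) (hxJ j hj)
  -- the entries of the blocks with poles are replaced by the coordinates
  have hqinj : Set.InjOn q J := by
    intro j hj j' hj' hjj
    by_contra hne
    obtain ⟨i, hi⟩ := (hq j hj).1
    obtain ⟨i', hi'⟩ := (hq j' hj').1
    exact hdisj j.succ j'.succ i i' (fun h' => hne (Fin.succ_injective _ h'))
      (by rw [hi, hi']; exact hjj)
  have hqx : ∀ j ∈ J, c (q j) = xu j := fun j hj => (hq j hj).2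
  have hq0 : ∀ j ∈ J, ∀ i, q j ≠ p 0 i := by
    intro j hj i h2
    obtain ⟨i', hi'⟩ := (hq j hj).1
    exact hdisj j.succ 0 i' i (Fin.succ_ne_zero j) (by rw [hi', h2])
  have hc0 : ∀ i, c (p 0 i) = a (p 0 i) := fun i =>
    hc _ fun j _ i' => hdisj _ _ _ _ (Fin.succ_ne_zero j)
  set b : Fin J.card → Fin k := fun i => (J.equivFin.symm i : Fin k) with hbdef
  have hbJ : ∀ i, b i ∈ J := fun i => (J.equivFin.symm i).2
  have hbi : Function.Injective b := Subtype.val_injective.comp J.equivFin.symm.injective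
  have hbw : ∀ j, w j ≠ 0 → ∃ l, b l = j := by
    intro j hj
    have hjJ : j ∈ J := by
      by_contra h2
      exact hj (hwn j h2)
    exact ⟨J.equivFin ⟨j, hjJ⟩, by simp [hbdef]⟩
  have hqb : Function.Injective fun i => q (b i) := fun i i' hii =>
    hbi (hqinj (hbJ i) (hbJ i') hii)
  have hz : ∀ i, (c (q (b i)) : L) = x (b i) := by
    intro i
    rw [hqx _ (hbJ i), hxu _ (hbJ i)]
  have hv : ∀ i, v (c (q (b i)) : L) = WithZero.exp (w (b i) : ℤ) := by
    intro i
    rw [hz]
    exact hwJ _ (hbJ i)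
  have hlev : lev φ (fun i => c (p 0 i)) (W 0) = G.eval₂ φ x := by
    rw [funext hc0]
    exact h0
  rcases hW0 with ⟨hW0, hG⟩ | ⟨hW0, hG⟩
  · exact mem_of_product φ v hW0 hG hw0 hbi hbw hwx c (p := fun i => q (b i)) hqb hz hv (hp 0)
      (fun i l => hq0 _ (hbJ i) l) hlev
  · exact mem_of_power φ v hW0 hG hw0 hbi hbw hwx c (p := fun i => q (b i)) hqb hz hv (hp 0)
      (fun i l => hq0 _ (hbJ i) l) hlev

end main

end Pool.Agent.V7H50.SF
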