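import Pool.Agent.V7H50.SF.Inf
import Pool.Agent.N65.TD.Reg
set_option autoImplicit false

/-!
The coordinate ring of the fibrations over the affine space: the symbol is unramified; complex
points and tori.
-/

namespace Pool.Agent.V7H50.SF

open Pool.Agent.TH826.MK

open Pool.Agent.N65.TL Pool.Agent.N65.TD Pool.Agent.N65.TE

section ring

variable {K : Type*} [Field K] {k D : ℕ} {s : Fin (k + 1) → ℕ} (e : Fin (D + 1) ≃ Vars s)
  (W : ∀ j, LP K (s j + 1)) (F : Fin (k + 1) → MvPolynomial (Fin k) K)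

theorem smk_rel (j : Fin (k + 1)) : smk e W F (aW e j (W j)) = sx e W F (F j) := by
  have h : smk e W F (aW e j (W j) - ax D (F j)) = 0 :=
    Ideal.Quotient.eq_zero_iff_mem.2 (Ideal.subset_span ⟨j, rfl⟩)
  rw [map_sub, sub_eq_zero] at h
  exact h

variable {L : Type*} [CommRing L] (φ : SRing e W F →+* L)

theorem map_sx (P : MvPolynomial (Fin k) K) :
    φ (sx e W F P) = P.eval₂ (φ.comp (scst e W F)) fun i => φ (sx e W F (MvPolynomial.X i)) := by
  have h := MvPolynomial.eval₂_comp_left (φ.comp (sx e W F)) MvPolynomial.C MvPolynomial.X P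
  rw [MvPolynomial.eval₂_eta] at h
  exact h

theorem lev_sz (j : Fin (k + 1)) : lev (φ.comp (scst e W F))
    (fun i => Units.map (φ : SRing e W F →* L) (sz e W F ⟨j, i⟩)) (W j) =
      φ (sx e W F (F j)) := by
  rw [← smk_rel]
  exact (lev_comp ((ax D).comp MvPolynomial.C) (fun i => az K e ⟨j, i⟩) (φ.comp (smk e W F))
    (W j)).symm

theorem map_aeval_X (p : Polynomial K) (j : Fin k) :
    φ (sx e W F (Polynomial.aeval (MvPolynomial.X j : MvPolynomial (Fin k) K) p)) =
      p.eval₂ (φ.comp (scst e W F)) (φ (sx e W F (MvPolynomial.X j))) :=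
  Polynomial.hom_eval₂ p (algebraMap K (MvPolynomial (Fin k) K)) (φ.comp (sx e W F))
    (MvPolynomial.X j)

end ring

/-- The symbol is unramified. -/
theorem unram {K : Type*} [Field K] {k D : ℕ} {s : Fin (k + 1) → ℕ} (e : Fin (D + 1) ≃ Vars s)
    {W : ∀ j, LP K (s j + 1)} (hW : ∀ j : Fin k, SimplexFaces (W j.succ))
    {f : Fin k → Polynomial K} (hf : ∀ j, MonicInt (f j)) {G : MvPolynomial (Fin k) K}
    (hG : SimplexFaces (W 0) ∧ ProductAtInfinity G ∨ ProductFaces (W 0) ∧ PowerAtInfinity G) :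
    Unram e W (sumF f G) := by
  intro L _ φ
  classical
  unfold ssym
  rw [KQ.map_symb]
  unfold Unramified
  simp only [Submodule.mem_iInf]
  intro v _
  set a : Fin (D + 1) → Lˣ := fun l =>
    Units.map (φ : SRing e W (sumF f G) →* L) (sz e W (sumF f G) (e l)) with ha
  have hae : ∀ j, (fun i => a (e.symm ⟨j, i⟩)) = fun i =>
      Units.map (φ : SRing e W (sumF f G) →* L) (sz e W (sumF f G) ⟨j, i⟩) := by
    intro j
    funext i
    rw [ha]
    simp only [Equiv.apply_symm_apply]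
  refine mem_unitPart_sum (φ.comp (scst e W (sumF f G))) v a
    (fun j i => e.symm ⟨j, i⟩) (fun j i i' h => ?_) (fun j j' i i' h h' => ?_) (fun l => ?_) hW hG
    hf (fun i => φ (sx e W (sumF f G) (MvPolynomial.X i))) ?_ fun j => ?_
  · have h1 := e.symm.injective h
    simpa using h1
  · have h1 := e.symm.injective h'
    exact h (congrArg Sigma.fst h1)
  · exact ⟨(e l).1, (e l).2, e.symm_apply_apply l⟩
  · rw [hae, lev_sz]
    exact map_sx e W (sumF f G) φ G
  · rw [hae, lev_sz]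
    exact map_aeval_X e W (sumF f G) φ (f j) j

section points

variable {K : Type*} [Field K] {k D : ℕ} {s : Fin (k + 1) → ℕ} {e : Fin (D + 1) ≃ Vars s}
  {W : ∀ j, LP K (s j + 1)} {F : Fin (k + 1) → MvPolynomial (Fin k) K} {σ : K →+* ℂ}

/-- The complex points. -/
structure SPt (σ : K →+* ℂ) (W : ∀ j, LP K (s j + 1)) (F : Fin (k + 1) → MvPolynomial (Fin k) K)
    (x : Fin k → ℂ) (z : Vars s → ℂ) : Prop where
  ne : ∀ w, z w ≠ 0
  eq : ∀ j, ∑ m ∈ (W j).coeff.support, σ ((W j).coeff m) * ∏ i, z ⟨j, i⟩ ^ (m i) =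
    (F j).eval₂ σ x

variable {x : Fin k → ℂ} {z : Vars s → ℂ}

/-- evaluation on the Laurent polynomials -/
noncomputable def SPt.evA (e : Fin (D + 1) ≃ Vars s) (h : SPt σ W F x z) : ARing K k D →+* ℂ :=
  lev (MvPolynomial.eval₂Hom σ x) fun l => Units.mk0 (z (e l)) (h.ne _)

theorem SPt.evA_ax (h : SPt σ W F x z) (P : MvPolynomial (Fin k) K) :
    h.evA e (ax D P) = P.eval₂ σ x := by
  refine (lev_single _ _ 0 P).trans ?_
  rw [mon_zero, Units.val_one, mul_one]
  rfl

theorem SPt.evA_az (h : SPt σ W F x z) (w : Vars s) :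
    h.evA e (az K e w : ARing K k D) = z w := by
  refine (lev_single _ _ (Pi.single (e.symm w) 1) 1).trans ?_
  rw [map_one, one_mul, mon_single, Units.val_mk0, e.apply_symm_apply]

theorem SPt.evA_aW (h : SPt σ W F x z) (j : Fin (k + 1)) :
    h.evA e (aW e j (W j)) = (F j).eval₂ σ x := by
  rw [← h.eq j]
  refine (lev_comp ((ax D).comp MvPolynomial.C) (fun i => az K e ⟨j, i⟩) (h.evA e)
    (W j)).trans ?_
  have h1 : (h.evA e).comp ((ax D).comp MvPolynomial.C) = σ := by
    ext c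
    rw [RingHom.comp_apply, RingHom.comp_apply, h.evA_ax, MvPolynomial.eval₂_C]
  have h2 : (fun i => Units.map (h.evA e : ARing K k D →* ℂ) (az K e ⟨j, i⟩)) = fun i =>
      Units.mk0 (z ⟨j, i⟩) (h.ne _) := by
    funext i
    refine Units.ext ?_
    rw [Units.val_mk0]
    exact h.evA_az ⟨j, i⟩
  rw [h1, h2]
  exact lev_mk0 (fun i => h.ne ⟨j, i⟩) (W j)

/-- evaluation on the coordinate ring -/
noncomputable def SPt.ev (e : Fin (D + 1) ≃ Vars s) (h : SPt σ W F x z) : SRing e W F →+* ℂ :=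
  Ideal.Quotient.lift (aideal e W F) (h.evA e) (by
    intro p hp
    have hle : aideal e W F ≤ RingHom.ker (h.evA e) := by
      unfold aideal
      rw [Ideal.span_le]
      rintro q ⟨j, rfl⟩
      show h.evA e _ = 0
      rw [map_sub, h.evA_aW, h.evA_ax, sub_self]
    exact hle hp)

theorem SPt.ev_mk (h : SPt σ W F x z) (P : ARing K k D) : h.ev e (smk e W F P) = h.evA e P :=
  Ideal.Quotient.lift_mk _ _ _

theorem SPt.ev_cst (h : SPt σ W F x z) (c : K) : h.ev e (scst e W F c) = σ c := by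
  unfold scst sx
  rw [RingHom.comp_apply, RingHom.comp_apply, h.ev_mk, h.evA_ax, MvPolynomial.eval₂_C]

theorem SPt.ev_z (h : SPt σ W F x z) (w : Vars s) :
    h.ev e (sz e W F w : SRing e W F) = z w := by
  show h.ev e (smk e W F ((az K e w : (ARing K k D)ˣ) : ARing K k D)) = _
  rw [h.ev_mk, h.evA_az]

theorem SPt.congr {x' : Fin k → ℂ} {z' : Vars s → ℂ} (h : SPt σ W F x z) (h' : SPt σ W F x' z')
    (hx : x = x') (hz : z = z') : h.ev e = h'.ev e := by
  subst hx
  subst hz
  rfl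

variable {n : ℕ} {X : Fin k → (Fin n → ℝ) → ℂ} {Z : Vars s → (Fin n → ℝ) → ℂ}

theorem contDiff_ev (hX : ∀ j, ContDiff ℝ 2 (X j)) (hZ : ∀ w, Good (Z w))
    (h : ∀ θ, SPt σ W F (fun j => X j θ) fun w => Z w θ) (b : SRing e W F) :
    ContDiff ℝ 2 fun θ => (h θ).ev e b := by
  have hpol : ∀ p : MvPolynomial (Fin k) K,
      ContDiff ℝ 2 fun θ => p.eval₂ σ fun j => X j θ := by
    intro p
    simp only [MvPolynomial.eval₂_eq']
    exact ContDiff.sum fun m _ => contDiff_const.mul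
      (contDiff_prod fun i _ => (hX i).pow _)
  obtain ⟨P, rfl⟩ : ∃ P : LP (MvPolynomial (Fin k) K) (D + 1), smk e W F (P : ARing K k D) = b :=
    Ideal.Quotient.mk_surjective b
  have h1 : (fun θ => (h θ).ev e (smk e W F (P : ARing K k D))) = fun θ =>
      ∑ m ∈ P.coeff.support, (P.coeff m).eval₂ σ (fun j => X j θ) * ∏ i, Z (e i) θ ^ (m i) := by
    funext θ
    refine ((h θ).ev_mk _).trans ((lev_eq _ _ P).trans (Finset.sum_congr rfl fun m _ => ?_))
    congr 1
    unfold mon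
    rw [Units.coe_prod]
    exact Finset.prod_congr rfl fun i _ => by rw [Units.val_zpow_eq_zpow_val, Units.val_mk0]
  rw [h1]
  exact ContDiff.sum fun m _ => (hpol _).mul (contDiff_prod fun i _ => contDiff_zpow' (hZ _) _)

/-- a torus in the variety -/
noncomputable def mkS (e : Fin (D + 1) ≃ Vars s) (hX : ∀ j, ContDiff ℝ 2 (X j))
    (hZ : ∀ w, Good (Z w)) (h : ∀ θ, SPt σ W F (fun j => X j θ) fun w => Z w θ)
    (hXp : ∀ j θ l, X j (θ + Pi.single l 1) = X j θ) (hZp : ∀ w, Per (Z w)) :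
    Torus (SRing e W F) n where
  e θ := (h θ).ev e
  smooth b := contDiff_ev hX hZ h b
  periodic θ l := SPt.congr _ _ (funext fun j => hXp j θ l) (funext fun w => hZp w θ l)

end points

end Pool.Agent.V7H50.SF
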