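import Pool.Agent.V7H50.SF.Points
import Pool.Agent.V7H50.SF.Block
set_option autoImplicit false

/-!
The regulators of the symbols on the fibrations over the affine space.
-/

namespace Pool.Agent.V7H50.SF

open Pool.Agent.TH826.MK

open Pool.Agent.TH826.SX (pairing_close good_circ lw_circ circ_ne_zero)

open Pool.Agent.N65.TL Pool.Agent.N65.TD Pool.Agent.N65.TE

section mat

variable {k D : ℕ} {s : Fin (k + 1) → ℕ} (e : Fin (D + 1) ≃ Vars s)

/-- the columns: the logarithm belongs to the first variable of the block with the constant -/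
def colS : Fin (D + 1) ≃ Vars s := (Equiv.swap 0 (e.symm ⟨0, 0⟩)).trans e

theorem colS_zero : colS e 0 = ⟨0, 0⟩ := by
  unfold colS
  rw [Equiv.trans_apply, Equiv.swap_apply_left, Equiv.apply_symm_apply]

theorem colS_symm_ne {w : Vars s} (h : w ≠ ⟨0, 0⟩) : (colS e).symm w ≠ 0 := by
  intro h1
  rw [Equiv.symm_apply_eq, colS_zero] at h1
  exact h h1

/-- the angles -/
def ang (w : Vars s) (h : w ≠ ⟨0, 0⟩) : Fin D := ((colS e).symm w).pred (colS_symm_ne e h)

theorem eq_ang_iff (w : Vars s) (h : w ≠ ⟨0, 0⟩) (j : Fin D) :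
    colS e j.succ = w ↔ j = ang e w h := by
  unfold ang
  constructor
  · intro h1
    have h2 : (colS e).symm w = j.succ := by rw [← h1, Equiv.symm_apply_apply]
    refine Fin.succ_injective _ ?_
    rw [Fin.succ_pred, h2]
  · intro h1
    rw [h1, Fin.succ_pred, Equiv.apply_symm_apply]

theorem colS_succ_ne (j : Fin D) : colS e j.succ ≠ ⟨0, 0⟩ := by
  intro h
  rw [← colS_zero e] at h
  exact Fin.succ_ne_zero j ((colS e).injective h)

variable (B : ∀ j, Matrix (Fin (s j + 1)) (Fin (s j + 1)) ℝ)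

/-- the matrix of the orders of the entries -/
noncomputable def RS : Matrix (Fin (D + 1)) (Fin (D + 1)) ℝ :=
  (Matrix.blockDiagonal' B).submatrix e (colS e)

theorem det_RS (hB : ∀ j, (B j).det ≠ 0) : (RS e B).det ≠ 0 := by
  rw [← isUnit_iff_ne_zero, ← Matrix.isUnit_iff_isUnit_det]
  unfold RS
  rw [Matrix.isUnit_submatrix_equiv]
  have h1 : IsUnit B := by
    rw [Pi.isUnit_iff]
    intro j
    rw [Matrix.isUnit_iff_isUnit_det, isUnit_iff_ne_zero]
    exact hB j
  exact h1.map (Matrix.blockDiagonal'RingHom (fun j => Fin (s j + 1)) ℝ)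

theorem blockDiagonal'_eq_sum (j : Fin (k + 1)) (i : Fin (s j + 1)) (w : Vars s) :
    Matrix.blockDiagonal' B ⟨j, i⟩ w = ∑ c, if w = ⟨j, c⟩ then B j i c else 0 := by
  obtain ⟨j', c'⟩ := w
  by_cases h : j = j'
  · subst h
    rw [Matrix.blockDiagonal'_apply_eq, Finset.sum_eq_single c', if_pos rfl]
    · intro c _ hc
      rw [if_neg]
      intro h1
      apply hc
      have h2 := Sigma.mk.inj_iff.1 h1
      exact (eq_of_heq h2.2).symm
    · intro h1
      exact absurd (Finset.mem_univ _) h1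
  · rw [Matrix.blockDiagonal'_apply_ne _ _ _ h]
    refine (Finset.sum_eq_zero fun c _ => if_neg fun h1 => h ?_).symm
    exact (congrArg Sigma.fst h1).symm

/-- the orders of the entries of the first block -/
theorem RS_zero_zero (l : Fin (D + 1)) (i : Fin (s 0 + 1)) (hl : e l = ⟨0, i⟩) :
    RS e B l 0 = B 0 i 0 := by
  unfold RS
  rw [Matrix.submatrix_apply, hl, colS_zero, Matrix.blockDiagonal'_apply_eq]

theorem RS_succ_zero (l : Fin (D + 1)) (j : Fin k) (i : Fin (s j.succ + 1))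
    (hl : e l = ⟨j.succ, i⟩) : RS e B l 0 = 0 := by
  unfold RS
  rw [Matrix.submatrix_apply, hl, colS_zero,
    Matrix.blockDiagonal'_apply_ne _ _ _ (Fin.succ_ne_zero j)]

theorem ne_zero_succ (l : Fin (s 0)) : (⟨0, l.succ⟩ : Vars s) ≠ ⟨0, 0⟩ := by
  intro h
  exact Fin.succ_ne_zero l (eq_of_heq (Sigma.mk.inj_iff.1 h).2)

theorem ne_succ (j : Fin k) (i : Fin (s j.succ + 1)) : (⟨j.succ, i⟩ : Vars s) ≠ ⟨0, 0⟩ :=
  fun h => Fin.succ_ne_zero j (congrArg Sigma.fst h)

theorem RS_zero_succ (l : Fin (D + 1)) (i : Fin (s 0 + 1)) (hl : e l = ⟨0, i⟩) (j' : Fin D) :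
    RS e B l j'.succ =
      ∑ c : Fin (s 0), if j' = ang e ⟨0, c.succ⟩ (ne_zero_succ c) then B 0 i c.succ else 0 := by
  unfold RS
  rw [Matrix.submatrix_apply, hl, blockDiagonal'_eq_sum, Fin.sum_univ_succ,
    if_neg (colS_succ_ne e j'), zero_add]
  refine Finset.sum_congr rfl fun c _ => ?_
  simp only [eq_ang_iff e _ (ne_zero_succ c) j']

theorem RS_succ_succ (l : Fin (D + 1)) (j : Fin k) (i : Fin (s j.succ + 1))
    (hl : e l = ⟨j.succ, i⟩) (j' : Fin D) :
    RS e B l j'.succ =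
      (if j' = ang e ⟨j.succ, 0⟩ (ne_succ j 0) then B j.succ i 0 else 0) +
      ∑ c : Fin (s j.succ),
        if j' = ang e ⟨j.succ, c.succ⟩ (ne_succ j c.succ) then B j.succ i c.succ else 0 := by
  unfold RS
  rw [Matrix.submatrix_apply, hl, blockDiagonal'_eq_sum, Fin.sum_univ_succ]
  simp only [eq_ang_iff e _ (ne_succ j _) j']

end mat

section reg

variable {K : Type*} [Field K] {k D : ℕ} {s : Fin (k + 1) → ℕ}

theorem eval₂_aeval_X (σ : K →+* ℂ) (x : Fin k → ℂ) (j : Fin k) (p : Polynomial K) :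
    (Polynomial.aeval (MvPolynomial.X j : MvPolynomial (Fin k) K) p).eval₂ σ x =
      p.eval₂ σ (x j) := by
  have h := Polynomial.hom_eval₂ p (algebraMap K (MvPolynomial (Fin k) K))
    (MvPolynomial.eval₂Hom σ x) (MvPolynomial.X j)
  have h2 : (MvPolynomial.eval₂Hom σ x).comp (algebraMap K (MvPolynomial (Fin k) K)) = σ := by
    ext a
    rw [RingHom.comp_apply, MvPolynomial.algebraMap_eq, MvPolynomial.coe_eval₂Hom,
      MvPolynomial.eval₂_C]
  rw [h2, MvPolynomial.coe_eval₂Hom, MvPolynomial.eval₂_X] at h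
  exact h

/-- The regulators. -/
theorem exists_reg (e : Fin (D + 1) ≃ Vars s) {W : ∀ j, LP K (s j + 1)}
    (hW : ∀ j, Interior (W j)) {f : Fin k → Polynomial K} (hf : ∀ j, MonicInt (f j))
    (H : MvPolynomial (Fin k) K) (σ : K →+* ℂ) :
    ∃ q : ℝ, q ≠ 0 ∧ ∀ ε : ℝ, 0 < ε → ∃ C : ℝ, ∀ c : K, C ≤ ‖σ c‖ →
      HasReg e W (sumF f (H + MvPolynomial.C c)) σ (Real.log ‖σ c‖) q ε := by
  classical
  have hex : ∀ {n : ℕ} {a v : Fin (n + 1) → ℤ}, 0 < dot a v → ∃ i0, v i0 ≠ 0 := by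
    intro n a v h
    by_contra hcon
    push Not at hcon
    have h1 : dot a v = 0 := Finset.sum_eq_zero fun i _ => by rw [hcon i, mul_zero]
    omega
  choose al v hv hpos hmax using fun j => exists_vertex (hW j)
  choose i0 hi0 using fun j => hex (hpos j)
  set B : ∀ j, Matrix (Fin (s j + 1)) (Fin (s j + 1)) ℝ :=
    Fin.cons (zmat (al 0) (v 0) (i0 0)) fun j =>
      zm (al j.succ) (v j.succ) (i0 j.succ) (f j).natDegree with hB
  have hBdet : ∀ j, (B j).det ≠ 0 := by
    intro j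
    refine Fin.cases ?_ (fun j => ?_) j
    · exact det_zmat (hpos 0) (hi0 0)
    · exact det_zm (hpos j.succ) (hi0 j.succ) (hf j).pos
  refine ⟨(2 * Real.pi) ^ D * (RS e B).det, mul_ne_zero (pow_ne_zero _ (by
    have := Real.pi_pos; positivity)) (det_RS e B hBdet), fun ε hε => ?_⟩
  obtain ⟨δ, hδ, hclose⟩ := pairing_close (RS e B) hε
  choose ρ Cj k1 hρ hC hblock using fun j : Fin k =>
    circle_block σ (hf j).monic (hf j).pos (hv j.succ) (hpos j.succ) (hmax j.succ) (i0 j.succ) hδ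
  choose Z hZg hZp hZlog hZlw hZeq using fun j : Fin k =>
    hblock j D (ang e ⟨j.succ, 0⟩ (ne_succ j 0)) fun l => ang e ⟨j.succ, l.succ⟩ (ne_succ j l.succ)
  set X : Fin k → (Fin D → ℝ) → ℂ := fun j θ =>
    circ (ρ j) (θ (ang e ⟨j.succ, 0⟩ (ne_succ j 0))) ^ (k1 j) with hX
  have hXc : ∀ j, ContDiff ℝ 2 (X j) := fun j => (good_circ (hρ j) _).smooth.pow _
  have hXp : ∀ j θ l, X j (θ + Pi.single l 1) = X j θ := by
    intro j θ l
    have h2 : circ (ρ j) ((θ + Pi.single l 1 : Fin D → ℝ) (ang e ⟨j.succ, 0⟩ (ne_succ j 0))) =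
        circ (ρ j) (θ (ang e ⟨j.succ, 0⟩ (ne_succ j 0))) := per_circ (ρ j) _ θ l
    simp only [hX]
    rw [h2]
  set Hθ : (Fin D → ℝ) → ℂ := fun θ => H.eval₂ σ fun j => X j θ with hHθ
  have hHc : ContDiff ℝ 2 Hθ := by
    simp only [hHθ, MvPolynomial.eval₂_eq']
    exact ContDiff.sum fun m _ => contDiff_const.mul
      (contDiff_prod fun i _ => (hXc i).pow _)
  have hHp : Per Hθ := by
    intro θ l
    simp only [hHθ]
    congr 1
    funext j
    exact hXp j θ l
  obtain ⟨C0, hC01, hconst⟩ := const_block σ (hv 0) (hpos 0) (hmax 0) (i0 0) hδ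
    (fun l => ang e ⟨0, l.succ⟩ (ne_zero_succ l)) hHc hHp
  refine ⟨max C0 (Real.exp (∑ j, Cj j / δ + 1)), fun c hc => ?_⟩
  have hln : 0 < ‖σ c‖ := lt_of_lt_of_le (Real.exp_pos _) ((le_max_right _ _).trans hc)
  have hT : ∑ j, Cj j / δ + 1 ≤ Real.log ‖σ c‖ := by
    rw [Real.le_log_iff_exp_le hln]
    exact (le_max_right _ _).trans hc
  have hCd : ∀ j, 0 ≤ Cj j / δ := fun j => div_nonneg (hC j) hδ.le
  have hTpos : 0 < Real.log ‖σ c‖ := by
    have := Finset.sum_nonneg (s := Finset.univ) fun j (_ : j ∈ Finset.univ) => hCd j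
    linarith
  obtain ⟨Y, hYg, hYp, hYlog, hYlw, hYeq⟩ := hconst (σ c) ((le_max_left _ _).trans hc)
  set ZZ : ∀ j : Fin (k + 1), Fin (s j + 1) → (Fin D → ℝ) → ℂ := Fin.cons Y Z with hZZ
  have hZZg : ∀ w : Vars s, Good (ZZ w.1 w.2) := by
    rintro ⟨j, i⟩
    revert i
    refine Fin.cases (fun i => ?_) (fun j i => ?_) j
    · exact hYg i
    · exact hZg j i
  have hZZp : ∀ w : Vars s, Per (ZZ w.1 w.2) := by
    rintro ⟨j, i⟩
    revert i
    refine Fin.cases (fun i => ?_) (fun j i => ?_) j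
    · exact hYp i
    · exact hZp j i
  have hPt : ∀ θ, SPt σ W (sumF f (H + MvPolynomial.C c)) (fun j => X j θ)
      fun w => ZZ w.1 w.2 θ := by
    intro θ
    refine ⟨fun w => (hZZg w).ne_zero θ, fun j => ?_⟩
    refine Fin.cases ?_ (fun j => ?_) j
    · have h1 := hYeq θ
      have h2 : sumF f (H + MvPolynomial.C c) 0 = H + MvPolynomial.C c := rfl
      rw [h2, MvPolynomial.eval₂_add, MvPolynomial.eval₂_C]
      exact h1
    · have h1 := hZeq j θ
      have h2 : sumF f (H + MvPolynomial.C c) j.succ =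
          Polynomial.aeval (MvPolynomial.X j : MvPolynomial (Fin k) K) (f j) := rfl
      rw [h2, eval₂_aeval_X]
      exact h1
  set Γ := mkS e hXc hZZg hPt hXp hZZp with hΓ
  refine ⟨Γ, fun θ x => (hPt θ).ev_cst x, ?_⟩
  unfold ssym
  rw [Torus.reg_symb]
  have hfn : ∀ w : Vars s, Γ.fn (sz e W (sumF f (H + MvPolynomial.C c)) w :
      SRing e W (sumF f (H + MvPolynomial.C c))) = ZZ w.1 w.2 := by
    intro w
    funext θ
    exact (hPt θ).ev_z w
  have hite : ∀ (P : Prop) [Decidable P] (x : ℝ),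
      ((if P then x else 0 : ℝ) : ℂ) = if P then (x : ℂ) else 0 := by
    intro P _ x
    split_ifs <;> simp
  refine hclose _ _ hTpos.ne' (fun l => Γ.good _) (fun l θ => ?_) (fun l j' θ => ?_)
  · obtain ⟨w, hw⟩ : ∃ w, e l = w := ⟨_, rfl⟩
    rw [hfn, hw]
    obtain ⟨j, i⟩ := w
    revert i
    refine Fin.cases (fun i hw => ?_) (fun j i hw => ?_) j
    · rw [RS_zero_zero e B l i hw]
      exact hYlog i θ
    · rw [RS_succ_zero e B l j i hw, sub_zero, abs_div, abs_of_pos hTpos, div_lt_iff₀ hTpos]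
      refine (hZlog j i θ).trans_lt ?_
      have h1 : Cj j / δ ≤ ∑ j, Cj j / δ :=
        Finset.single_le_sum (fun j _ => hCd j) (Finset.mem_univ j)
      have h2 : Cj j / δ < Real.log ‖σ c‖ := by linarith
      rw [div_lt_iff₀ hδ] at h2
      linarith
  · obtain ⟨w, hw⟩ : ∃ w, e l = w := ⟨_, rfl⟩
    rw [hfn, hw]
    obtain ⟨j, i⟩ := w
    revert i
    refine Fin.cases (fun i hw => ?_) (fun j i hw => ?_) j
    · rw [RS_zero_succ e B l i hw j']
      have h1 := hYlw i j' θ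
      have h2 : ((∑ c : Fin (s 0), if j' = ang e ⟨0, c.succ⟩ (ne_zero_succ c) then
          B 0 i c.succ else 0 : ℝ) : ℂ) =
          ∑ l, if j' = ang e ⟨0, l.succ⟩ (ne_zero_succ l) then (bdir (v 0) (i0 0) l i : ℂ)
            else 0 := by
        rw [Complex.ofReal_sum]
        refine Finset.sum_congr rfl fun l _ => ?_
        have h3 : B 0 i l.succ = ((bdir (v 0) (i0 0) l i : ℤ) : ℝ) := rfl
        rw [hite, h3, Complex.ofReal_intCast]
      rw [h2]
      exact h1
    · rw [RS_succ_succ e B l j i hw j']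
      have h1 := hZlw j i j' θ
      have h2 : (((if j' = ang e ⟨j.succ, 0⟩ (ne_succ j 0) then B j.succ i 0 else 0) +
          ∑ c : Fin (s j.succ), if j' = ang e ⟨j.succ, c.succ⟩ (ne_succ j c.succ) then
            B j.succ i c.succ else 0 : ℝ) : ℂ) =
          al j.succ i * (if j' = ang e ⟨j.succ, 0⟩ (ne_succ j 0) then
            ((f j).natDegree : ℂ) else 0) +
          ∑ l, if j' = ang e ⟨j.succ, l.succ⟩ (ne_succ j l.succ) then
            (bdir (v j.succ) (i0 j.succ) l i : ℂ) else 0 := by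
        rw [Complex.ofReal_add, Complex.ofReal_sum, hite]
        congr 1
        · have h3 : B j.succ i 0 = (al j.succ i : ℝ) * ((f j).natDegree : ℝ) := rfl
          rw [h3]
          split_ifs
          · push_cast
            rfl
          · rw [mul_zero]
        · refine Finset.sum_congr rfl fun l _ => ?_
          have h3 : B j.succ i l.succ = ((bdir (v j.succ) (i0 j.succ) l i : ℤ) : ℝ) := rfl
          rw [hite, h3, Complex.ofReal_intCast]
      rw [h2]
      exact h1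

end reg

end Pool.Agent.V7H50.SF
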